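import Pool.Agent.H158.GP.Stm
import Pool.Agent.H158.GM.Ampl
import Pool.Graph.R_pool_sql_team_seeded_3997aac3.Q97.UM.Jm

set_option autoImplicit false

/-! The sum of the reciprocals of the ordinates of the critical zeros. -/

namespace Pool.Agent.H158.GP

open Finset Filter Topology Complex

namespace Amp

/-- the weight -/
noncomputable def Dw (t : ℝ) : ℝ := Real.log t ^ (3 / 4 : ℝ)

lemma Dw_pos {t : ℝ} (ht : 1 < t) : 0 < Dw t := Real.rpow_pos_of_pos (Real.log_pos ht) _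

/-- upper bound for the weight -/
lemma Dw_le {T t : ℝ} (hT : 16 ≤ T) (h1 : T < t) (h2 : t ≤ 2 * T) :
    Dw t ≤ 2 * Real.log T ^ (3 / 4 : ℝ) := by
  unfold Dw
  have hT0 : 0 < T := by linarith
  have ht0 : 0 < t := by linarith
  have hL : 0 < Real.log T := Real.log_pos (by linarith)
  have h3 : Real.log t ≤ 2 * Real.log T := by
    have h4 : Real.log t ≤ Real.log (T * T) := by
      refine Real.log_le_log ht0 (h2.trans ?_)
      exact mul_le_mul_of_nonneg_right (by linarith) hT0.le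
    rw [Real.log_mul hT0.ne' hT0.ne'] at h4
    linarith
  have h5 : 0 ≤ Real.log t := (Real.log_pos (by linarith)).le
  calc Real.log t ^ (3 / 4 : ℝ) ≤ (2 * Real.log T) ^ (3 / 4 : ℝ) :=
        Real.rpow_le_rpow h5 h3 (by norm_num)
    _ = 2 ^ (3 / 4 : ℝ) * Real.log T ^ (3 / 4 : ℝ) :=
        Real.mul_rpow (by norm_num) hL.le
    _ ≤ 2 * Real.log T ^ (3 / 4 : ℝ) := by
        refine mul_le_mul_of_nonneg_right ?_ (Real.rpow_nonneg hL.le _)
        calc (2 : ℝ) ^ (3 / 4 : ℝ) ≤ 2 ^ (1 : ℝ) :=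
              Real.rpow_le_rpow_of_exponent_le (by norm_num) (by norm_num)
          _ = 2 := Real.rpow_one _

/-- lower bound for the weight -/
lemma Dw_ge {U t : ℝ} (hU : 1 < U) (h1 : Real.sqrt U ≤ t) :
    1 / 2 * Real.log U ^ (3 / 4 : ℝ) ≤ Dw t := by
  unfold Dw
  have hU0 : 0 < U := by linarith
  have hL : 0 < Real.log U := Real.log_pos hU
  have h3 : 1 / 2 * Real.log U ≤ Real.log t := by
    have h4 := Real.log_le_log (Real.sqrt_pos.2 hU0) h1
    rw [Real.log_sqrt hU0.le] at h4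
    linarith
  calc 1 / 2 * Real.log U ^ (3 / 4 : ℝ)
      ≤ (1 / 2 : ℝ) ^ (3 / 4 : ℝ) * Real.log U ^ (3 / 4 : ℝ) := by
        refine mul_le_mul_of_nonneg_right ?_ (Real.rpow_nonneg hL.le _)
        calc (1 / 2 : ℝ) = (1 / 2 : ℝ) ^ (1 : ℝ) := (Real.rpow_one _).symm
          _ ≤ (1 / 2 : ℝ) ^ (3 / 4 : ℝ) :=
              Real.rpow_le_rpow_of_exponent_ge (by norm_num) (by norm_num) (by norm_num)
    _ = (1 / 2 * Real.log U) ^ (3 / 4 : ℝ) := (Real.mul_rpow (by norm_num) hL.le).symm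
    _ ≤ Real.log t ^ (3 / 4 : ℝ) := Real.rpow_le_rpow (by positivity) h3 (by norm_num)

end Amp

open Amp in
theorem t_AMPP : P_AMPP := by
  classical
  obtain ⟨d, hd, hd1, hJ⟩ := Pool.Agent.Q97.UM.J_low
  obtain ⟨c, hc, hJ⟩ := hJ 1 le_rfl
  obtain ⟨Z, hZ⟩ : ∃ Z : ℝ → Finset ℝ, Z = fun T => (Pool.Agent.Q97.UM.ZI d T).image Complex.im := ⟨_, rfl⟩
  have hmem : ∀ T : ℝ, 16 ≤ T → ∀ s ∈ Pool.Agent.Q97.UM.ZI d T, s = 1 / 2 + (s.im : ℝ) * I ∧ T < s.im ∧ s.im ≤ 2 * T ∧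
      riemannZeta (1 / 2 + (s.im : ℝ) * I) = 0 := by
    intro T hT s hs
    obtain ⟨h1, h2, h3, h4, h5, -⟩ := (Pool.Agent.Q97.UM.mem_ZI_iff (d := d) (T := T) hT hd1).1 hs
    have e : s = 1 / 2 + (s.im : ℝ) * I := by
      apply Complex.ext
      · simp [h1]
      · simp
    refine ⟨e, h2, h3, ?_⟩
    rw [← e]; exact h4
  have hZm : ∀ T : ℝ, 16 ≤ T → ∀ t ∈ Z T, T < t ∧ t ≤ 2 * T ∧ riemannZeta (1 / 2 + t * I) = 0 := by
    intro T hT t ht
    rw [hZ, Finset.mem_image] at ht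
    obtain ⟨s, hs, rfl⟩ := ht
    obtain ⟨-, h2, h3, h4⟩ := hmem T hT s hs
    exact ⟨h2, h3, h4⟩
  have H : ∀ᶠ T : ℝ in atTop, (∀ t ∈ Z T, T < t ∧ t ≤ 2 * T ∧ 0 < Dw t) ∧
      c / 2 * T * Real.log T ^ (1 / 4 : ℝ) ≤ ∑ t ∈ Z T, (Dw t)⁻¹ := by
    filter_upwards [hJ, eventually_ge_atTop (16 : ℝ)] with T h1 h2
    refine ⟨fun t ht => ⟨(hZm T h2 t ht).1, (hZm T h2 t ht).2.1,
      Dw_pos (by linarith [(hZm T h2 t ht).1])⟩, ?_⟩
    have hL : 0 < Real.log T := Real.log_pos (by linarith)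
    have h3 := h1 0 (by rw [abs_zero]; exact zero_le_one)
    have e2 : ((0 : ℝ) + 1) ^ 2 = 1 := by norm_num
    rw [e2, Real.rpow_one] at h3
    have h4 : ∑ s ∈ Pool.Agent.Q97.UM.ZI d T, ‖deriv riemannZeta s‖ ^ (2 * (0 : ℝ)) =
        ((Z T).card : ℝ) := by
      rw [hZ, Finset.card_image_of_injOn]
      · simp only [mul_zero, Real.rpow_zero, Finset.sum_const, nsmul_eq_mul, mul_one]
      · intro a ha b hb hab
        rw [(hmem T h2 a ha).1, (hmem T h2 b hb).1, hab]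
    rw [h4] at h3
    have h5 : ∀ t ∈ Z T, (2 * Real.log T ^ (3 / 4 : ℝ))⁻¹ ≤ (Dw t)⁻¹ := by
      intro t ht
      have h6 := hZm T h2 t ht
      exact inv_anti₀ (Dw_pos (by linarith [h6.1])) (Dw_le h2 h6.1 h6.2.1)
    have h7 := Finset.card_nsmul_le_sum _ _ _ h5
    rw [nsmul_eq_mul] at h7
    refine le_trans ?_ h7
    have hp : 0 < Real.log T ^ (3 / 4 : ℝ) := Real.rpow_pos_of_pos hL _
    have he : Real.log T ^ (1 / 4 : ℝ) * Real.log T ^ (3 / 4 : ℝ) = Real.log T := by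
      rw [← Real.rpow_add hL]
      norm_num
    rw [← div_eq_mul_inv, le_div_iff₀ (by positivity)]
    calc c / 2 * T * Real.log T ^ (1 / 4 : ℝ) * (2 * Real.log T ^ (3 / 4 : ℝ))
        = c * T * (Real.log T ^ (1 / 4 : ℝ) * Real.log T ^ (3 / 4 : ℝ)) := by ring
      _ = c * T * Real.log T := by rw [he]
      _ ≤ ((Z T).card : ℝ) := h3
  have Hc : ∀ᶠ T : ℝ in atTop, ((Z T).card : ℝ) ≤ T ^ 2 := by
    filter_upwards [Pool.Agent.Q97.UM.ZI_card_le, eventually_ge_atTop (1 : ℝ)] with T h1 h2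
    have h3 : ((Z T).card : ℝ) ≤ ((Pool.Agent.Q97.UM.ZI d T).card : ℝ) := by
      rw [hZ]
      exact_mod_cast Finset.card_image_le
    refine h3.trans ((h1 d).trans ?_)
    have h4 := Real.log_le_sub_one_of_pos (show 0 < T by linarith)
    have h5 := Real.pi_gt_three
    have h6 : 2 * (Real.log T / (2 * Real.pi) * T) = Real.log T * T / Real.pi := by
      field_simp
    rw [h6, div_le_iff₀ (by linarith)]
    have h7 : Real.log T * T ≤ T * T := mul_le_mul_of_nonneg_right (by linarith) (by linarith)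
    nlinarith
  have hmain := Pool.Agent.H158.GM.t_ampl2 Z Dw (c / 2) (by positivity) H Hc
  refine ⟨c / 2 / 200, by positivity, ?_⟩
  filter_upwards [hmain, Real.tendsto_sqrt_atTop.eventually_ge_atTop 16,
    eventually_gt_atTop (1 : ℝ)] with U h1 h2 hU
  obtain ⟨S, hS, hcard, hsum⟩ := h1
  have hU0 : 0 < U := by linarith
  have hLU : 0 < Real.log U := Real.log_pos hU
  have hprop : ∀ t ∈ S, 16 ≤ t ∧ t ≤ U ∧ riemannZeta (1 / 2 + t * I) = 0 ∧ Real.sqrt U ≤ t := by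
    intro t ht
    obtain ⟨h3, T', h4, h5⟩ := hS t ht
    have h6 := hZm T' (h2.trans h4) t h5
    exact ⟨by linarith [h6.1], h3, h6.2.2, by linarith [h6.1]⟩
  refine ⟨S, fun t ht => ⟨(hprop t ht).1, (hprop t ht).2.1, (hprop t ht).2.2.1⟩, hcard, ?_⟩
  have h3 := hsum (1 / U ^ 2) (by positivity) le_rfl
  have hp : 0 < Real.log U ^ (3 / 4 : ℝ) := Real.rpow_pos_of_pos hLU _
  have h4 : ∑ t ∈ S, 1 / (t * (Dw t + 1 / U ^ 2)) ≤
      ∑ t ∈ S, 1 / t * (1 / (1 / 2 * Real.log U ^ (3 / 4 : ℝ))) := by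
    refine Finset.sum_le_sum fun t ht => ?_
    obtain ⟨h5, -, -, h6⟩ := hprop t ht
    have ht0 : 0 < t := by linarith
    have h7 := Dw_ge hU h6
    have hy : 0 ≤ 1 / U ^ 2 := by positivity
    rw [one_div_mul_one_div]
    refine one_div_le_one_div_of_le (by positivity) ?_
    exact mul_le_mul_of_nonneg_left (by linarith) ht0.le
  rw [← Finset.sum_mul] at h4
  have h5 := h3.trans h4
  rw [mul_one_div, le_div_iff₀ (by positivity)] at h5
  refine le_trans (le_of_eq ?_) h5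
  have he : Real.log U ^ (5 / 4 : ℝ) * Real.log U ^ (3 / 4 : ℝ) = Real.log U ^ (2 : ℝ) := by
    rw [← Real.rpow_add hLU]
    norm_num
  calc c / 2 / 200 * Real.log U ^ (2 : ℝ)
      = c / 2 / 200 * (Real.log U ^ (5 / 4 : ℝ) * Real.log U ^ (3 / 4 : ℝ)) := by rw [he]
    _ = c / 2 / 100 * Real.log U ^ (5 / 4 : ℝ) * (1 / 2 * Real.log U ^ (3 / 4 : ℝ)) := by ring

end Pool.Agent.H158.GP
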