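import Pool.Agent.H158.GP.Stm
import Pool.Graph.R_seed8.H382R2.Zeta2
import Pool.Graph.R_seed8.H370R2.Local
import Pool.Graph.R_seed8.H382P.FFhor

set_option autoImplicit false

/-! Landau's lemma for the logarithmic derivative of `(s - 1) ζ(s)`. -/

namespace Pool.Agent.H158.GP

namespace Lnd

open Metric Complex H370.Loc

theorem Pf_logDeriv_eq (s : Multiset ℂ) (z : ℂ) (h : ∀ ρ ∈ s, z ≠ ρ) :
    logDeriv (Pf s) z = (s.map fun ρ => 1 / (z - ρ)).sum := by
  induction s using Multiset.induction_on with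
  | empty =>
    have : Pf 0 = fun _ => (1 : ℂ) := funext Pf_zero
    rw [this]
    simp [logDeriv]
  | cons ρ s ih =>
    have : Pf (ρ ::ₘ s) = fun z => (z - ρ) * Pf s z := funext (Pf_cons ρ s)
    have hz : z - ρ ≠ 0 := sub_ne_zero.2 (h ρ (Multiset.mem_cons_self ρ s))
    have hP : Pf s z ≠ 0 := Pf_ne_zero fun ρ' h' => h ρ' (Multiset.mem_cons_of_mem h')
    have e1 : logDeriv (fun z => (z - ρ) * Pf s z) z =
        logDeriv (fun z => z - ρ) z + logDeriv (Pf s) z :=
      logDeriv_mul z hz hP (differentiableAt_id.sub_const ρ) (Pf_diff s z)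
    have e2 : logDeriv (fun z => z - ρ) z = 1 / (z - ρ) := by
      rw [logDeriv_apply]
      congr 1
      simp
    rw [this, e1, e2, ih fun ρ' h' => h ρ' (Multiset.mem_cons_of_mem h'), Multiset.map_cons,
      Multiset.sum_cons]

/-- Landau's lemma with the sum over the zeros -/
theorem landau_sum {f : ℂ → ℂ} {c : ℂ} {r r1 r2 R M : ℝ} (hr2 : 0 < r2) (h21 : r2 < r1)
    (h1r : r1 < r) (hrR : r < R) (hRr : R ≤ 2 * r) (hM : 1 ≤ M) (hMf : ‖f c‖ ≤ M)
    (hf : AnalyticOnNhd ℂ f (closedBall c R)) (hc : f c ≠ 0)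
    (hb : ∀ z ∈ closedBall c R, ‖f z‖ ≤ M) :
    ∃ s : Multiset ℂ, (∀ ρ ∈ s, ρ ∈ closedBall c r ∧ f ρ = 0) ∧
      (∀ ρ ∈ closedBall c r, f ρ = 0 → ρ ∈ s) ∧
      ∀ z ∈ closedBall c r2, f z ≠ 0 → ‖deriv f z / f z - (s.map fun ρ => 1 / (z - ρ)).sum‖ ≤
        2 * (Real.log (M / ‖f c‖) + Real.log (M / ‖f c‖) / Real.log (R / r) *
          Real.log (r / (R - r)) + 1) * r1 / (r - r1) / (r1 - r2) := by
  have hr : 0 < r := by linarith
  have hR : 0 < R := by linarith
  obtain ⟨s, g, hs, hg, hfg, hg0, hcard⟩ := extract hr hrR hM hf hc hb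
  refine ⟨s, hs, fun ρ hρ h0 => ?_, ?_⟩
  · by_contra hns
    have h1 := hfg ρ
    rw [h0] at h1
    have h2 : Pf s ρ ≠ 0 := Pf_ne_zero fun ρ' h' he => hns (he ▸ h')
    exact (mul_ne_zero h2 (hg0 ρ hρ)) h1.symm
  intro z hz hfz
  have hzr : z ∈ closedBall c r := closedBall_subset_closedBall (by linarith) hz
  have hzR : z ∈ closedBall c R := closedBall_subset_closedBall hrR.le hzr
  have hcr : c ∈ closedBall c r := mem_closedBall_self hr.le
  have hcR : c ∈ closedBall c R := mem_closedBall_self hR.le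
  have hne : ∀ ρ ∈ s, z ≠ ρ := fun ρ hρ he => hfz (by rw [he]; exact (hs ρ hρ).2)
  have hPz : Pf s z ≠ 0 := Pf_ne_zero hne
  have hfc : 0 < ‖f c‖ := norm_pos_iff.2 hc
  set n := Multiset.card s with hn
  have hlogM : 0 ≤ Real.log (M / ‖f c‖) := Real.log_nonneg (by rw [le_div_iff₀ hfc]; linarith)
  have hRr0 : 0 < R - r := by linarith
  have hq : 1 ≤ r / (R - r) := by rw [le_div_iff₀ hRr0]; linarith
  have hlogq : 0 ≤ Real.log (r / (R - r)) := Real.log_nonneg hq
  -- bounds for g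
  have hgsphere : ∀ w ∈ sphere c R, ‖g w‖ ≤ M / (R - r) ^ n := by
    intro w hw
    have hwR := sphere_subset_closedBall hw
    have h1 : (R - r) ^ n ≤ ‖Pf s w‖ := Pf_norm_ge hRr0.le fun ρ hρ => by
      have h2 := (hs ρ hρ).1
      rw [mem_closedBall, dist_eq_norm] at h2
      rw [mem_sphere, dist_eq_norm] at hw
      have h3 : ‖w - c‖ ≤ ‖w - ρ‖ + ‖ρ - c‖ := by
        calc ‖w - c‖ = ‖(w - ρ) + (ρ - c)‖ := by congr 1; ring
          _ ≤ _ := norm_add_le _ _
      linarith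
    rw [le_div_iff₀ (by positivity)]
    calc ‖g w‖ * (R - r) ^ n ≤ ‖g w‖ * ‖Pf s w‖ := mul_le_mul_of_nonneg_left h1 (norm_nonneg _)
      _ = ‖f w‖ := by rw [hfg w, norm_mul, mul_comm]
      _ ≤ M := hb w hwR
  have hgball : ∀ w ∈ closedBall c R, ‖g w‖ ≤ M / (R - r) ^ n := by
    intro w hw
    refine Complex.norm_le_of_forall_mem_frontier_norm_le (U := ball c R) isBounded_ball ?_ ?_ ?_
    · apply DifferentiableOn.diffContOnCl
      rw [closure_ball c hR.ne']
      exact fun x hx => (hg x hx).differentiableAt.differentiableWithinAt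
    · intro x hx
      rw [frontier_ball c hR.ne'] at hx
      exact hgsphere x hx
    · rwa [closure_ball c hR.ne']
  have hgc : ‖f c‖ / r ^ n ≤ ‖g c‖ := by
    rw [div_le_iff₀ (by positivity)]
    have h1 : ‖Pf s c‖ ≤ r ^ n := Pf_norm_le fun ρ hρ => by
      have h2 := (hs ρ hρ).1
      rw [mem_closedBall, dist_eq_norm, norm_sub_rev] at h2
      exact h2
    calc ‖f c‖ = ‖g c‖ * ‖Pf s c‖ := by rw [hfg c, norm_mul, mul_comm]
      _ ≤ ‖g c‖ * r ^ n := mul_le_mul_of_nonneg_left h1 (norm_nonneg _)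
  set B : ℝ := Real.log (M / ‖f c‖) + n * Real.log (r / (R - r)) with hB
  have hB0 : 0 ≤ B := by positivity
  have hexpB : Real.exp B = M / ‖f c‖ * (r / (R - r)) ^ n := by
    rw [hB, Real.exp_add, Real.exp_log (by positivity), Real.exp_nat_mul,
      Real.exp_log (by positivity)]
  have hgb : ∀ w ∈ closedBall c r, ‖g w‖ ≤ Real.exp B * ‖g c‖ := by
    intro w hw
    refine (hgball w (closedBall_subset_closedBall hrR.le hw)).trans ?_
    rw [hexpB]
    calc M / (R - r) ^ n = M / ‖f c‖ * (r / (R - r)) ^ n * (‖f c‖ / r ^ n) := by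
          rw [div_pow]; field_simp
      _ ≤ _ := mul_le_mul_of_nonneg_left hgc (by positivity)
  have hlg := logDeriv_zero_free hr2 h21 h1r hB0
    (hg.mono (closedBall_subset_closedBall hrR.le)) hg0 hgb hz
  have heq : deriv f z / f z = logDeriv (Pf s) z + logDeriv g z := by
    have h1 : f = fun w => Pf s w * g w := funext hfg
    rw [← logDeriv_apply]
    conv_lhs => rw [h1]
    exact logDeriv_mul z hPz (hg0 z hzr) (Pf_diff s z) (hg z hzR).differentiableAt
  rw [heq, Pf_logDeriv_eq s z hne, add_sub_cancel_left]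
  refine hlg.trans ?_
  have h8 : B ≤ Real.log (M / ‖f c‖) + Real.log (M / ‖f c‖) / Real.log (R / r) *
        Real.log (r / (R - r)) := by
    rw [hB]
    have := mul_le_mul_of_nonneg_right hcard hlogq
    linarith
  have h9 : 0 < r - r1 := by linarith
  have h10 : 0 < r1 - r2 := by linarith
  have h11 : 0 < r1 := by linarith
  gcongr

theorem h8 : 1 / 8 ≤ Real.log ((37 / 20) / (8 / 5)) := by
  rw [Real.le_log_iff_exp_le (by norm_num)]
  have h1 := Real.exp_bound_div_one_sub_of_interval (x := 1 / 8) (by norm_num) (by norm_num)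
  refine h1.trans ?_
  norm_num

theorem num {A L : ℝ} (hA0 : 0 ≤ A) (hA : A ≤ 6 * L) (hL : 1 ≤ L) :
    2 * (A + A / Real.log ((37 / 20) / (8 / 5)) * Real.log ((8 / 5) / (37 / 20 - 8 / 5)) + 1) *
      (31 / 20) / (8 / 5 - 31 / 20) / (31 / 20 - 3 / 2) ≤ 127720 * L := by
  have h1 := h8
  have h2 : Real.log ((8 / 5) / (37 / 20 - 8 / 5)) ≤ 2 := by
    rw [Real.log_le_iff_le_exp (by norm_num)]
    have := Real.exp_one_gt_d9
    have h5 : Real.exp 2 = Real.exp 1 * Real.exp 1 := by rw [← Real.exp_add]; norm_num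
    rw [h5]; norm_num; nlinarith
  have h3 : 0 ≤ Real.log ((8 / 5) / (37 / 20 - 8 / 5)) := Real.log_nonneg (by norm_num)
  have h4 : A / Real.log ((37 / 20) / (8 / 5)) ≤ 8 * A := by
    rw [div_le_iff₀ (by linarith)]
    nlinarith
  have h6 : A / Real.log ((37 / 20) / (8 / 5)) * Real.log ((8 / 5) / (37 / 20 - 8 / 5)) ≤
      8 * A * 2 := mul_le_mul h4 h2 h3 (by linarith)
  obtain ⟨y, hy⟩ : ∃ y, y = A / Real.log ((37 / 20) / (8 / 5)) *
    Real.log ((8 / 5) / (37 / 20 - 8 / 5)) := ⟨_, rfl⟩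
  rw [← hy] at h6 ⊢
  have e : 2 * (A + y + 1) * (31 / 20) / (8 / 5 - 31 / 20) / (31 / 20 - 3 / 2) =
      1240 * (A + y + 1) := by ring
  rw [e]
  linarith

theorem setup (t : ℝ) : ∃ (c : ℂ) (M : ℝ), c = 2 + t * I ∧ 1 ≤ M ∧ ‖riemannZeta₁ c‖ ≤ M ∧
    AnalyticOnNhd ℂ riemannZeta₁ (closedBall c (37 / 20)) ∧ riemannZeta₁ c ≠ 0 ∧
    (∀ z ∈ closedBall c (37 / 20 : ℝ), ‖riemannZeta₁ z‖ ≤ M) ∧
    0 ≤ Real.log (M / ‖riemannZeta₁ c‖) ∧
    Real.log (M / ‖riemannZeta₁ c‖) ≤ 6 * Real.log (|t| + 5) ∧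
    (∀ z ∈ closedBall c (37 / 20 : ℝ), 0 < z.re) ∧ 1 ≤ Real.log (|t| + 5) := by
  obtain ⟨c, hc⟩ : ∃ c : ℂ, c = 2 + t * I := ⟨_, rfl⟩
  have hcr : c.re = 2 := by rw [hc]; simp
  have hcn : ‖c‖ ≤ 2 + |t| := by
    rw [hc]
    refine (norm_add_le _ _).trans ?_
    rw [norm_mul, Complex.norm_I, mul_one, Complex.norm_real, Real.norm_eq_abs]
    simp
  have ht := abs_nonneg t
  have hre : ∀ z ∈ closedBall c (37 / 20 : ℝ), 3 / 20 ≤ z.re := by
    intro z hz
    rw [mem_closedBall, dist_eq_norm] at hz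
    have h3 := (Complex.abs_re_le_norm (z - c)).trans hz
    rw [Complex.sub_re, hcr, abs_le] at h3
    linarith [h3.1]
  have hM : (1 : ℝ) ≤ 11 * (|t| + 5) ^ 2 := by nlinarith
  have hb : ∀ z ∈ closedBall c (37 / 20 : ℝ), ‖riemannZeta₁ z‖ ≤ 11 * (|t| + 5) ^ 2 := by
    intro z hz
    refine (SG.z1_growth (by linarith [hre z hz])).trans ?_
    rw [mem_closedBall, dist_eq_norm] at hz
    have h3 : ‖z‖ ≤ ‖z - c‖ + ‖c‖ := by
      have := norm_add_le (z - c) c
      rwa [sub_add_cancel] at this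
    have h4 : ‖z‖ + 1 ≤ |t| + 5 := by linarith
    have h5 := norm_nonneg z
    nlinarith
  have hc4 : 1 / 4 ≤ ‖riemannZeta₁ c‖ := by rw [hc]; exact Pool.Agent.H437R2.z1_lower t
  have hc0 : 0 < ‖riemannZeta₁ c‖ := by linarith
  have hcM := hb c (mem_closedBall_self (by norm_num))
  have h5 : 1 ≤ Real.log (|t| + 5) := by
    rw [Real.le_log_iff_exp_le (by linarith)]
    have := Real.exp_one_lt_d9
    linarith
  have h6 : Real.log (4 * (11 * (|t| + 5) ^ 2)) ≤ 6 * Real.log (|t| + 5) := by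
    have e : (4 * (11 * (|t| + 5) ^ 2) : ℝ) = 44 * (|t| + 5) ^ 2 := by ring
    rw [e, Real.log_mul (by norm_num) (by positivity), Real.log_pow]
    have h7 : Real.log 44 ≤ 4 := by
      rw [Real.log_le_iff_le_exp (by norm_num)]
      have := Real.exp_one_gt_d9
      have h8 : Real.exp 4 = (Real.exp 1) ^ 4 := by rw [← Real.exp_nat_mul]; norm_num
      rw [h8]
      have h9 : (2.7 : ℝ) ^ 4 ≤ Real.exp 1 ^ 4 := pow_le_pow_left₀ (by norm_num) (by linarith) 4
      refine le_trans ?_ h9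
      norm_num
    push_cast
    linarith
  refine ⟨c, 11 * (|t| + 5) ^ 2, hc, hM, hcM, ?_, norm_pos_iff.1 hc0, hb, ?_, ?_,
    fun z hz => by linarith [hre z hz], h5⟩
  · intro z _
    have : Differentiable ℂ riemannZeta₁ := by fun_prop
    exact this.analyticAt z
  · exact Real.log_nonneg (by rw [le_div_iff₀ hc0]; linarith)
  · refine le_trans (Real.log_le_log (by positivity) ?_) h6
    rw [div_le_iff₀ hc0]
    nlinarith

theorem re_sum_nonneg (s : Multiset ℂ) (z : ℂ) (h : ∀ ρ ∈ s, ρ.re ≤ z.re) :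
    0 ≤ ((s.map fun ρ => 1 / (z - ρ)).sum).re := by
  induction s using Multiset.induction_on with
  | empty => simp
  | cons ρ s ih =>
    rw [Multiset.map_cons, Multiset.sum_cons, add_re]
    have h1 := ih fun ρ' h' => h ρ' (Multiset.mem_cons_of_mem h')
    have h2 : 0 ≤ (1 / (z - ρ)).re := by
      rw [one_div, inv_re]
      have := h ρ (Multiset.mem_cons_self ρ s)
      exact div_nonneg (by rw [sub_re]; linarith) (normSq_nonneg _)
    linarith

end Lnd

open Metric Complex Lnd in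
theorem t_LNDP : P_LNDP := by
  refine ⟨130000, by norm_num, ?_, ?_⟩
  · intro σ t η h1 h2 hη hη1 hd
    obtain ⟨c, M, hc, hM, hcM, han, hc0, hb, hA0, hA, hre, hL⟩ := setup t
    have hz : (σ : ℂ) + t * I ∈ closedBall c (3 / 2 : ℝ) := by
      rw [mem_closedBall, dist_eq_norm]
      have e : (σ : ℂ) + t * I - c = ((σ - 2 : ℝ) : ℂ) := by rw [hc]; push_cast; ring
      rw [e, Complex.norm_real, Real.norm_eq_abs, abs_le]
      constructor <;> linarith
    obtain ⟨h3, h4⟩ := H370.Loc.landau (r := 8 / 5) (r1 := 31 / 20) (r2 := 3 / 2) (R := 37 / 20) (by norm_num)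
      (by norm_num) (by norm_num) (by norm_num) (by norm_num) hM hcM han hc0 hb _ hz η hη
      (fun ρ hρ h0 => hd ρ h0 (hre ρ (closedBall_subset_closedBall (by norm_num) hρ)))
    refine ⟨h3, h4.trans ?_⟩
    have h5 := num hA0 hA hL
    have h6 : Real.log (M / ‖riemannZeta₁ c‖) / Real.log ((37 / 20) / (8 / 5)) ≤
        48 * Real.log (|t| + 5) := by
      rw [div_le_iff₀ (by linarith [h8])]
      nlinarith [h8]
    obtain ⟨L, hLdef⟩ : ∃ L, L = Real.log (|t| + 5) := ⟨_, rfl⟩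
    rw [← hLdef] at h5 h6 hL ⊢
    calc _ ≤ 48 * L / η + 127720 * L := add_le_add (div_le_div_of_nonneg_right h6 hη.le) h5
      _ ≤ 48 * L / η + 127720 * L / η := by
          have : 127720 * L ≤ 127720 * L / η := by
            rw [le_div_iff₀ hη]
            nlinarith
          linarith
      _ ≤ _ := by
          rw [← add_div]
          exact div_le_div_of_nonneg_right (by linarith) hη.le
  · intro hRH t δ h0 hδ hδ1
    obtain ⟨c, M, hc, hM, hcM, han, hc0, hb, hA0, hA, hre, hL⟩ := setup t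
    obtain ⟨s, hs, hs2, hs3⟩ := landau_sum (r := 8 / 5) (r1 := 31 / 20) (r2 := 3 / 2) (R := 37 / 20) (by norm_num)
      (by norm_num) (by norm_num) (by norm_num) (by norm_num) hM hcM han hc0 hb
    obtain ⟨z, hz⟩ : ∃ z : ℂ, z = 1 / 2 + t * I + δ := ⟨_, rfl⟩
    rw [← hz]
    have hzre : z.re = 1 / 2 + δ := by rw [hz]; simp
    have hzc : z ∈ closedBall c (3 / 2 : ℝ) := by
      rw [mem_closedBall, dist_eq_norm]
      have e : z - c = ((1 / 2 + δ - 2 : ℝ) : ℂ) := by rw [hc, hz]; push_cast; ring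
      rw [e, Complex.norm_real, Real.norm_eq_abs, abs_le]
      constructor <;> linarith
    have hfz : riemannZeta₁ z ≠ 0 := by
      intro h
      have := hRH z h (by rw [hzre]; linarith)
      rw [hzre] at this
      linarith
    have hρ0 : (1 / 2 + t * I : ℂ) ∈ s := by
      refine hs2 _ ?_ h0
      rw [mem_closedBall, dist_eq_norm]
      have e : (1 / 2 + t * I : ℂ) - c = ((1 / 2 - 2 : ℝ) : ℂ) := by rw [hc]; push_cast; ring
      rw [e, Complex.norm_real, Real.norm_eq_abs]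
      rw [abs_le]
      constructor <;> norm_num
    obtain ⟨s', hs'⟩ := Multiset.exists_cons_of_mem hρ0
    have h1 := hs3 z hzc hfz
    have h2 := num hA0 hA hL
    have h3 := (Complex.abs_re_le_norm _).trans (h1.trans h2)
    rw [sub_re, abs_le] at h3
    have h4 : 1 / δ ≤ ((s.map fun ρ => 1 / (z - ρ)).sum).re := by
      rw [hs', Multiset.map_cons, Multiset.sum_cons, add_re]
      have h5 : 0 ≤ ((s'.map fun ρ => 1 / (z - ρ)).sum).re := by
        refine re_sum_nonneg s' z fun ρ hρ => ?_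
        have h6 := hs ρ (by rw [hs']; exact Multiset.mem_cons_of_mem hρ)
        have h7 := hRH ρ h6.2 (hre ρ (closedBall_subset_closedBall (by norm_num) h6.1))
        rw [h7, hzre]
        linarith
      have h6 : (1 / (z - (1 / 2 + t * I)) : ℂ) = ((1 / δ : ℝ) : ℂ) := by
        rw [hz]
        push_cast
        congr 1
        ring
      rw [h6, ofReal_re]
      linarith
    have := h3.1
    linarith

end Pool.Agent.H158.GP
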