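import Pool.Graph.R_seed8.W263.BSD.Lap
import Pool.Graph.R_seed8.H437R2.A1

/-! # The error term of the prime number theorem, or close relations between the ordinates: parts of the proof

Every `P_X` is one part; its docstring is a paper proof. -/

set_option autoImplicit false

namespace Pool.Agent.H158.GP

open Finset Filter Topology Complex
open Pool.Agent.W263.BSD

/-- Chebyshev's function -/
noncomputable def ps (x : ℝ) : ℝ := ∑ n ∈ Finset.Icc 1 ⌊x⌋₊, ArithmeticFunction.vonMangoldt n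

noncomputable def gP (v : ℝ) : ℝ := ps (Real.exp v) - Real.exp v

/-- **TRP** (the Laplace transform of `ψ(e^v) - e^v`). `riemannZeta₁ s = (s-1) ζ(s)` for `s ≠ 1`
(`Pool.Agent.H437R2.z1_of_ne`), an entire function with `riemannZeta₁ 1 = 1`.
Proof. For `Re z > 1` (Mathlib: `LSeries_eq_mul_integral`, `ArithmeticFunction.LSeries_vonMangoldt_eq_deriv_riemannZeta_div`,
substitution `x = e^v`): `∫_0^∞ ψ(e^v) e^(-zv) dv = -ζ'/ζ(z) / z`, and `∫_0^∞ e^v e^(-zv) dv = 1/(z-1)`, so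
`lapC gP z = -ζ'/ζ(z)/z - 1/(z-1)`; with `ζ'/ζ = ζ₁'/ζ₁ - 1/(z-1)` this is `-(ζ₁'/ζ₁(z) + 1)/z`. The function `ζ₁` has no zeros on
`(1/2, ∞)` (`Pool.Agent.Y21.FW.real_ne`), so by Landau's theorem for a function bounded on one side
(`s gP(v) ≤ e^((1/2+ε)v)` for large `v`; library `Q241SPL.landau_step` in `Pool.Graph.R_pool_sql_team_seeded_3997aac3.Q241.SPL.Landau`,
or the version for `M` in `Y853.HM.Tr`, theorems `other_side`, `lint_g`, module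
`Pool.Graph.R_pool_sql_team_seeded_1acbe0a2.Y853.HM.Tr`) the integral converges absolutely in `Re z > 1/2`; the identity
`z ζ₁(z) lapC gP z = -(ζ₁'(z) + ζ₁(z))` extends by analyticity (identity theorem; see `g_ext` in `Y853.HM.Tr`) to `Re z > 1/2`.
A zero `ρ` of `ζ₁` with `Re ρ > 1/2` of order `m` would give a zero of order `≥ m` of `ζ₁'` there: impossible
(`ζ₁` is not identically zero near `ρ`). Zeros with `0 < Re ρ < 1/2` are reflected by the functional equation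
(`riemannZeta_one_sub`; see `rh` in `Y853.HM`). -/
def P_TRP : Prop :=
  ∀ s : ℝ, (s = 1 ∨ s = -1) → (∀ ε : ℝ, 0 < ε → ∀ᶠ y : ℝ in atTop, s * (ps y - y) ≤ y ^ (1 / 2 + ε)) →
    (∀ w : ℝ, 1 / 2 < w → LInt gP w) ∧
    (∀ ρ : ℂ, riemannZeta₁ ρ = 0 → 0 < ρ.re → ρ.re = 1 / 2) ∧
    ∀ z : ℂ, 1 / 2 < z.re → z * riemannZeta₁ z * lapC gP z = -(deriv riemannZeta₁ z + riemannZeta₁ z)

/-- **LNDP** (Landau's lemma for `ζ₁'/ζ₁`, upper and lower bound).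
Proof. Apply `H370.Loc.extract` / `H370.Loc.landau` (module `Pool.Graph.R_seed8.H370R2.Local`) with `f = riemannZeta₁`, centre
`c = 2 + it`, radii as in `Pool/Agent/H158/GM/Zlow.lean` (theorems `low_abs`, `zlow`: radii `37/20`, `8/5`, `3/2`, growth
`SG.z1_growth`, `‖f c‖ ≥ 1/4` by `Pool.Agent.H437R2.z1_lower`; the bound is `M = 11 (|t|+5)^2`). (1) is `landau`, with a further
radius `31/20` in between (`r2 = 3/2 < r1 = 31/20 < r = 8/5 < R = 37/20`); `s = σ + it` with `1/2 ≤ σ ≤ 2` is in the ball of radius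
`3/2`. (2) by `extract`: `f = Pf s · g`, so `f'/f = ∑_{ρ ∈ s} 1/(z-ρ) + g'/g`, `‖g'/g‖ ≤ C log(|t|+5)` on the ball of radius `3/2`
(`logDeriv_zero_free` as in the proof of `landau`), all `ρ ∈ s` are zeros with `0 < Re ρ`, so `Re ρ = 1/2` by the hypothesis and
`Re 1/(z-ρ) ≥ 0` for `z = 1/2 + δ + it`, and one of the `ρ` is `1/2 + it` itself, with `1/(z-ρ) = 1/δ`. -/
def P_LNDP : Prop :=
  ∃ C : ℝ, 0 < C ∧
    (∀ σ t η : ℝ, 1 / 2 ≤ σ → σ ≤ 2 → 0 < η → η ≤ 1 →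
      (∀ ρ : ℂ, riemannZeta₁ ρ = 0 → 0 < ρ.re → η ≤ ‖(σ : ℂ) + t * I - ρ‖) →
      riemannZeta₁ ((σ : ℂ) + t * I) ≠ 0 ∧
        ‖deriv riemannZeta₁ ((σ : ℂ) + t * I) / riemannZeta₁ ((σ : ℂ) + t * I)‖ ≤ C * Real.log (|t| + 5) / η) ∧
    ((∀ ρ : ℂ, riemannZeta₁ ρ = 0 → 0 < ρ.re → ρ.re = 1 / 2) → ∀ t δ : ℝ, riemannZeta₁ (1 / 2 + t * I) = 0 → 0 < δ → δ ≤ 1 →
      1 / δ - C * Real.log (|t| + 5) ≤
        (deriv riemannZeta₁ (1 / 2 + t * I + δ) / riemannZeta₁ (1 / 2 + t * I + δ)).re)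

/-- **AMPP** (the sum of the reciprocals of the ordinates).
Proof. As the theorem `ampl` at the end of `Pool/Agent/H158/GM/Low.lean`, with the exponent `0` instead of `-1/2` in `J_low`
(`h1 0`: `∑_{s ∈ ZI d T} ‖ζ'(s)‖^(2·0) ≥ c T (log T)^((0+1)^2)`, so there are at least `c T log T` elements in `ZI d T`), and
`D t = (log t)^(3/4)` in `t_ampl2` (`Pool/Agent/H158/GM/Ampl.lean`): `∑_{t ∈ Z T} 1/D t ≥ c T log T (log 2T)^(-3/4) ≥ (c/2) T (log T)^(1/4)`.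
The set `S` of `t_ampl2` satisfies, with `y = 1/U^2 ≤ D t`... simply drop `y > 0`:
`∑_{t ∈ S} 1/(t D t) ≥ ∑ 1/(t (D t + y)) ≥ (c/200) (log U)^(5/4)`, and `D t ≥ ((1/2) log U)^(3/4)` because `t ≥ T' ≥ √U`, so
`∑ 1/t ≥ ((1/2) log U)^(3/4) (c/200) (log U)^(5/4) ≥ c' (log U)^2`. -/
def P_AMPP : Prop :=
  ∃ c : ℝ, 0 < c ∧ ∀ᶠ U : ℝ in atTop, ∃ S : Finset ℝ,
    (∀ t ∈ S, 16 ≤ t ∧ t ≤ U ∧ riemannZeta (1 / 2 + t * I) = 0) ∧ (S.card : ℝ) ≤ U ^ 3 ∧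
      c * Real.log U ^ (2 : ℝ) ≤ ∑ t ∈ S, 1 / t

end Pool.Agent.H158.GP
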