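import Pool.Agent.H158.GM.Low
import Pool.Agent.H158.GL.Kern
import Pool.Agent.H158.GP.Stm

set_option autoImplicit false

/-! The Laplace transform of `ψ(e^v) - e^v` at the zeros and away from them. -/

namespace Pool.Agent.H158.GP

open Filter Topology Set MeasureTheory Complex
open Pool.Agent.W263.BSD Pool.Agent.Y853.HM Pool.Agent.H198.GM Pool.Agent.H158.GM

/-- the facts about the transform -/
structure Trp : Prop where
  rh : ∀ ρ : ℂ, riemannZeta₁ ρ = 0 → 0 < ρ.re → ρ.re = 1 / 2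
  id : ∀ z : ℂ, 1 / 2 < z.re → z * riemannZeta₁ z * lapC gP z = -(deriv riemannZeta₁ z + riemannZeta₁ z)

/-- the facts about the logarithmic derivative -/
structure Lnd (C : ℝ) : Prop where
  up : ∀ σ t η : ℝ, 1 / 2 ≤ σ → σ ≤ 2 → 0 < η → η ≤ 1 →
      (∀ ρ : ℂ, riemannZeta₁ ρ = 0 → 0 < ρ.re → η ≤ ‖(σ : ℂ) + t * I - ρ‖) →
      riemannZeta₁ ((σ : ℂ) + t * I) ≠ 0 ∧
        ‖deriv riemannZeta₁ ((σ : ℂ) + t * I) / riemannZeta₁ ((σ : ℂ) + t * I)‖ ≤ C * Real.log (|t| + 5) / η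
  low : (∀ ρ : ℂ, riemannZeta₁ ρ = 0 → 0 < ρ.re → ρ.re = 1 / 2) → ∀ t δ : ℝ, riemannZeta₁ (1 / 2 + t * I) = 0 →
      0 < δ → δ ≤ 1 → 1 / δ - C * Real.log (|t| + 5) ≤
        (deriv riemannZeta₁ (1 / 2 + t * I + δ) / riemannZeta₁ (1 / 2 + t * I + δ)).re

theorem ptre (x δ : ℝ) : (pt x + (δ : ℂ)).re = 1 / 2 + δ := by
  simp [pt]

theorem Trp.id1 (h : Trp) {z : ℂ} (hz : 1 / 2 < z.re) (h0 : riemannZeta₁ z ≠ 0) :
    z * lapC gP z = -(deriv riemannZeta₁ z / riemannZeta₁ z + 1) := by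
  have h1 := h.id z hz
  have h2 : riemannZeta₁ z * (z * lapC gP z) = riemannZeta₁ z * (-(deriv riemannZeta₁ z / riemannZeta₁ z + 1)) := by
    calc riemannZeta₁ z * (z * lapC gP z) = z * riemannZeta₁ z * lapC gP z := by ring
      _ = -(deriv riemannZeta₁ z + riemannZeta₁ z) := h1
      _ = _ := by field_simp
  exact mul_left_cancel₀ h0 h2

/-- away from the zeros the Laplace transform is not too large -/
theorem lap_upP (h : Trp) {C : ℝ} (hC0 : 0 < C) (hl : Lnd C) {A T : ℝ} (hT : 1 ≤ T) {S : Finset ℝ} (hC : Free A T S)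
    (hS : ∀ t ∈ S, 0 < t ∧ t ≤ T ∧ riemannZeta (1 / 2 + t * I) = 0) {x δ R : ℝ} (hx : x ∈ W 2 S) (hxR : |x| ≤ R)
    (hδ : 0 < δ) (hδ1 : δ ≤ 1) :
    ‖lapC gP (pt x + δ)‖ ≤ 2 * (C * Real.log (R + 5) * Real.exp (T ^ A) + 1) := by
  have hTA : 0 ≤ T ^ A := Real.rpow_nonneg (by linarith) A
  have hη1 : Real.exp (-(T ^ A)) ≤ 1 := Real.exp_le_one_iff.2 (by linarith)
  have hs : pt x + (δ : ℂ) = ((1 / 2 + δ : ℝ) : ℂ) + x * I := by
    unfold pt; push_cast; ring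
  obtain ⟨h0, hup⟩ := hl.up (1 / 2 + δ) x (Real.exp (-(T ^ A))) (by linarith) (by linarith) (Real.exp_pos _) hη1 (by
    intro ρ hρ hρ0
    have hρ1 : ρ ≠ 1 := by
      rintro rfl
      rw [riemannZeta₁_one] at hρ
      exact one_ne_zero hρ
    have hz : riemannZeta ρ = 0 := by
      have h1 := Pool.Agent.H437R2.z1_of_ne hρ1
      rw [hρ] at h1
      rcases mul_eq_zero.1 h1.symm with h2 | h2
      · exact absurd (sub_eq_zero.1 h2) hρ1
      · exact h2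
    have hre := h.rh ρ hρ hρ0
    have hρe : ρ = 1 / 2 + (ρ.im : ℝ) * I := by
      apply Complex.ext
      · simp [hre]
      · simp
    have him : |x - ρ.im| ≤ ‖((1 / 2 + δ : ℝ) : ℂ) + x * I - ρ‖ := by
      have := Complex.abs_im_le_norm (((1 / 2 + δ : ℝ) : ℂ) + x * I - ρ)
      simpa using this
    refine le_trans ?_ him
    rw [hρe] at hz
    rcases lt_trichotomy ρ.im 0 with h | h | h
    · have h3 := far1 hC hS hx (γ₀ := -ρ.im) (Or.inr ⟨by linarith, zero_neg hz⟩) (-1) (Or.inr rfl)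
      have e : x - ((-1 : ℤ) : ℝ) * (-ρ.im) = x - ρ.im := by push_cast; ring
      rwa [e] at h3
    · have h3 := far1 hC hS hx (γ₀ := 0) (Or.inl rfl) 1 (Or.inl rfl)
      rw [mul_zero] at h3
      rw [h]
      exact h3
    · have h3 := far1 hC hS hx (γ₀ := ρ.im) (Or.inr ⟨h, hz⟩) 1 (Or.inl rfl)
      have e : x - ((1 : ℤ) : ℝ) * ρ.im = x - ρ.im := by push_cast; ring
      rwa [e] at h3)
  rw [← hs] at h0 hup
  have hR0 : 0 ≤ R := (abs_nonneg x).trans hxR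
  have hlx : Real.log (|x| + 5) ≤ Real.log (R + 5) := Real.log_le_log (by positivity) (by linarith)
  have hup2 : ‖deriv riemannZeta₁ (pt x + δ) / riemannZeta₁ (pt x + δ)‖ ≤ C * Real.log (R + 5) * Real.exp (T ^ A) := by
    refine hup.trans ?_
    rw [Real.exp_neg, div_inv_eq_mul]
    exact mul_le_mul_of_nonneg_right (mul_le_mul_of_nonneg_left hlx hC0.le) (Real.exp_pos _).le
  have hid := congrArg norm (h.id1 (z := pt x + δ) (by rw [ptre]; linarith) h0)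
  rw [norm_mul, norm_neg] at hid
  have hre : 1 / 2 ≤ ‖pt x + (δ : ℂ)‖ := by
    have := Complex.abs_re_le_norm (pt x + (δ : ℂ))
    rw [ptre, abs_of_pos (by linarith)] at this
    linarith
  have h3 : ‖deriv riemannZeta₁ (pt x + δ) / riemannZeta₁ (pt x + δ) + 1‖ ≤ C * Real.log (R + 5) * Real.exp (T ^ A) + 1 := by
    refine (norm_add_le _ _).trans ?_
    rw [norm_one]
    linarith
  have h4 : 1 / 2 * ‖lapC gP (pt x + δ)‖ ≤ ‖pt x + (δ : ℂ)‖ * ‖lapC gP (pt x + δ)‖ :=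
    mul_le_mul_of_nonneg_right hre (norm_nonneg _)
  linarith

/-- at the zeros the Laplace transform is large -/
theorem lap_lowP (h : Trp) {C : ℝ} (hl : Lnd C) {t δ : ℝ} (ht : 16 ≤ t) (hδ : 0 < δ) (hδ1 : δ ≤ 1 / 20)
    (hz : riemannZeta (1 / 2 + t * I) = 0) (hCδ : C * Real.log (t + 5) * δ ≤ 1 / 2) :
    1 / 4 * (1 / t) ≤ δ * ‖lapC gP (pt t + δ)‖ := by
  have hpt : (1 / 2 + t * I : ℂ) = pt t := rfl
  have hpt1 : pt t ≠ 1 := by
    intro h1
    have := congrArg Complex.im h1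
    simp [pt] at this
    linarith
  have hz1 : riemannZeta₁ (1 / 2 + t * I) = 0 := by
    rw [hpt, Pool.Agent.H437R2.z1_of_ne hpt1, ← hpt, hz, mul_zero]
  have hlow := hl.low h.rh t δ hz1 hδ (by linarith)
  rw [hpt] at hlow
  have h0 : riemannZeta₁ (pt t + δ) ≠ 0 := by
    intro h1
    have := h.rh _ h1 (by rw [ptre]; linarith)
    rw [ptre] at this
    linarith
  have hid := congrArg norm (h.id1 (z := pt t + δ) (by rw [ptre]; linarith) h0)
  rw [norm_mul, norm_neg] at hid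
  have h2 : 1 / δ - C * Real.log (|t| + 5) + 1 ≤ ‖deriv riemannZeta₁ (pt t + δ) / riemannZeta₁ (pt t + δ) + 1‖ := by
    have h3 := Complex.re_le_norm (deriv riemannZeta₁ (pt t + δ) / riemannZeta₁ (pt t + δ) + 1)
    rw [Complex.add_re, Complex.one_re] at h3
    linarith
  rw [abs_of_pos (by linarith)] at h2
  obtain ⟨n1, n2⟩ := pt_norm t
  rw [abs_of_pos (by linarith)] at n1 n2
  have hzn : ‖pt t + (δ : ℂ)‖ ≤ 2 * t := by
    refine (norm_add_le _ _).trans ?_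
    rw [Complex.norm_real, Real.norm_of_nonneg hδ.le]
    linarith
  have ht0 : 0 < t := by linarith
  have h5 : δ * (1 / δ - C * Real.log (t + 5) + 1) ≤ δ * (2 * t * ‖lapC gP (pt t + δ)‖) := by
    refine mul_le_mul_of_nonneg_left ?_ hδ.le
    refine h2.trans ?_
    rw [← hid]
    exact mul_le_mul_of_nonneg_right hzn (norm_nonneg _)
  have h6 : δ * (1 / δ - C * Real.log (t + 5) + 1) = 1 - C * Real.log (t + 5) * δ + δ := by
    field_simp
  rw [h6] at h5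
  rw [mul_one_div, div_le_iff₀ ht0]
  nlinarith

theorem lim0P (h : Trp) : ∀ᶠ δ : ℝ in 𝓝[>] (0 : ℝ), |δ * lap gP (1 / 2 + δ)| ≤ 1 := by
  have hz : riemannZeta₁ (1 / 2) ≠ 0 := by
    have h1 := Pool.Agent.Y21.FW.real_ne (x := 1 / 2) (by norm_num) (by norm_num)
    push_cast at h1
    rw [Pool.Agent.H437R2.z1_of_ne (by norm_num)]
    exact mul_ne_zero (by norm_num) h1
  have hdiff : Differentiable ℂ riemannZeta₁ := by fun_prop
  have hcd : Continuous (deriv riemannZeta₁) :=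
    (Differentiable.contDiff (n := 1) hdiff).continuous_deriv le_rfl
  have h5 : Tendsto (fun δ : ℝ => ((1 / 2 + δ : ℝ) : ℂ)) (𝓝[>] 0) (𝓝 (1 / 2)) := by
    have h6 : Continuous (fun δ : ℝ => ((1 / 2 + δ : ℝ) : ℂ)) := by fun_prop
    have h7 := h6.tendsto 0
    have e : (((1 / 2 + 0 : ℝ)) : ℂ) = 1 / 2 := by norm_num
    rw [e] at h7
    exact h7.mono_left nhdsWithin_le_nhds
  have t1 := (hcd.tendsto (1 / 2 : ℂ)).comp h5
  have t2 := (hdiff.continuous.tendsto (1 / 2 : ℂ)).comp h5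
  have t3 := h5.mul t2
  have t4 := ((t1.add t2).neg).div t3 (mul_ne_zero (by norm_num) hz)
  have hδ0 : Tendsto (fun δ : ℝ => (δ : ℂ)) (𝓝[>] 0) (𝓝 0) := by
    have h6 : Continuous (fun δ : ℝ => (δ : ℂ)) := by fun_prop
    have h7 := h6.tendsto 0
    rw [Complex.ofReal_zero] at h7
    exact h7.mono_left nhdsWithin_le_nhds
  have t5 := (hδ0.mul t4).norm
  rw [zero_mul, norm_zero] at t5
  have h7 := t3.eventually_ne (mul_ne_zero (by norm_num) hz)
  filter_upwards [t5.eventually_le_const one_pos, h7, self_mem_nhdsWithin] with δ g1 g3 g4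
  have hδ : 0 < δ := g4
  have g3' : (((1 / 2 + δ : ℝ) : ℂ)) * riemannZeta₁ ((1 / 2 + δ : ℝ) : ℂ) ≠ 0 := g3
  refine le_trans (le_of_eq ?_) g1
  have hid := h.id ((1 / 2 + δ : ℝ) : ℂ) (by rw [Complex.ofReal_re]; linarith)
  rw [lapC_ofReal] at hid
  have e3 : ((δ * lap gP (1 / 2 + δ) : ℝ) : ℂ) = (δ : ℂ) *
      (-(deriv riemannZeta₁ ((1 / 2 + δ : ℝ) : ℂ) + riemannZeta₁ ((1 / 2 + δ : ℝ) : ℂ)) /
      ((((1 / 2 + δ : ℝ) : ℂ)) * riemannZeta₁ ((1 / 2 + δ : ℝ) : ℂ))) := by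
    rw [← hid, mul_comm _ ((lap gP (1 / 2 + δ) : ℝ) : ℂ), mul_div_assoc, div_self g3', mul_one]
    push_cast
    ring
  have e4 := congrArg norm e3
  rw [Complex.norm_real, Real.norm_eq_abs] at e4
  exact e4

end Pool.Agent.H158.GP
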