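import Pool.Agent.H158.GP.Stm
import Pool.Graph.R_pool_sql_team_seeded_1acbe0a2.Y853.HM.Tr

/-! # The Laplace transform of the error term of the prime number theorem and one-sided bounds -/

set_option autoImplicit false

namespace Pool.Agent.H158.GP

namespace Tr

open Filter Topology Set MeasureTheory
open Pool.Agent.W263.BSD
open Pool.Agent.Y853.HM (isOpen_half preconn_half lint_exp zeta1_eq zeta1_real re_analytic
  lint_abs lint_of_abs)

theorem ps_eq (x : ℝ) : ps x = Chebyshev.psi x := by
  unfold ps Chebyshev.psi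
  refine Finset.sum_congr ?_ fun _ _ => rfl
  ext n
  simp only [Finset.mem_Icc, Finset.mem_Ioc]
  omega

theorem ps_nonneg (x : ℝ) : 0 ≤ ps x := by rw [ps_eq]; exact Chebyshev.psi_nonneg x

theorem ps_le {x : ℝ} (hx : 0 ≤ x) : ps x ≤ (Real.log 4 + 4) * x := by
  rw [ps_eq]; exact Chebyshev.psi_le_const_mul_self hx

theorem ps_meas : Measurable (fun v : ℝ => ps (Real.exp v)) := by
  have h1 : Measurable (fun n : ℕ => ∑ k ∈ Finset.Icc 1 n, ArithmeticFunction.vonMangoldt k) :=
    measurable_from_top
  exact h1.comp (Nat.measurable_floor.comp Real.measurable_exp)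

theorem g_meas : Measurable gP := ps_meas.sub Real.measurable_exp

theorem log4 : 0 ≤ Real.log 4 := Real.log_nonneg (by norm_num)

theorem g_abs (v : ℝ) : |gP v| ≤ (Real.log 4 + 5) * Real.exp v := by
  have h1 := ps_nonneg (Real.exp v)
  have h2 := ps_le (Real.exp_pos v).le
  have h3 := Real.exp_pos v
  have h4 := log4
  have h5 := mul_nonneg h4 h3.le
  unfold gP
  rw [abs_le]
  constructor
  · nlinarith
  · nlinarith

theorem lint_dom {f : ℝ → ℝ} (hf : Measurable f) {c D w : ℝ} (hcw : c < w)
    (h : ∀ v, 0 < v → |f v| ≤ D * Real.exp (c * v)) : LInt f w := by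
  have h1 := (lint_exp hcw).const_mul D
  unfold LInt at *
  refine Integrable.mono' h1 (hf.mul (by fun_prop)).aestronglyMeasurable ?_
  refine (ae_restrict_iff' measurableSet_Ioi).mpr (Eventually.of_forall fun v hv => ?_)
  rw [norm_mul, Real.norm_of_nonneg (Real.exp_pos (-(w * v))).le, Real.norm_eq_abs]
  exact mul_le_mul_of_nonneg_right (h v hv) (Real.exp_pos _).le

theorem g_lint {w : ℝ} (hw : 1 < w) : LInt gP w :=
  lint_dom g_meas (D := Real.log 4 + 5) hw fun v _ => by rw [one_mul]; exact g_abs v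

theorem ps_lint {w : ℝ} (hw : 1 < w) : LInt (fun v => ps (Real.exp v)) w :=
  lint_dom ps_meas (D := Real.log 4 + 4) hw fun v _ => by
    rw [one_mul, abs_of_nonneg (ps_nonneg _)]; exact ps_le (Real.exp_pos _).le

theorem lapC_ps {s : ℂ} (hs : 1 < s.re) :
    s * lapC (fun v => ps (Real.exp v)) s = -deriv riemannZeta s / riemannZeta s := by
  rw [← ArithmeticFunction.LSeries_vonMangoldt_eq_deriv_riemannZeta_div hs]
  have h1 := LSeries_eq_mul_integral_of_nonneg (fun n => ArithmeticFunction.vonMangoldt n)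
    (r := 1) zero_le_one hs (by
      apply Asymptotics.IsBigO.of_bound (Real.log 4 + 4)
      refine Eventually.of_forall fun n => ?_
      have h2 := ps_le (x := n) (Nat.cast_nonneg n)
      unfold ps at h2
      rw [Nat.floor_natCast] at h2
      rw [Real.norm_of_nonneg (Finset.sum_nonneg fun _ _ => ArithmeticFunction.vonMangoldt_nonneg),
        Real.rpow_one, Real.norm_of_nonneg (Nat.cast_nonneg _)]
      exact h2) (fun _ => ArithmeticFunction.vonMangoldt_nonneg)
  rw [h1]
  congr 1
  have himg : Real.exp '' Ioi (0 : ℝ) = Ioi 1 := by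
    ext t
    constructor
    · rintro ⟨y, hy, rfl⟩
      exact Real.one_lt_exp_iff.2 hy
    · intro ht
      have ht' : (1 : ℝ) < t := ht
      exact ⟨Real.log t, Real.log_pos ht', Real.exp_log (by linarith)⟩
  rw [← himg, integral_image_eq_integral_abs_deriv_smul measurableSet_Ioi
    (fun x _ => (Real.hasDerivAt_exp x).hasDerivWithinAt) Real.exp_injective.injOn]
  unfold lapC
  apply setIntegral_congr_fun measurableSet_Ioi
  intro y _
  have hMx : (∑ k ∈ Finset.Icc 1 ⌊Real.exp y⌋₊, ((ArithmeticFunction.vonMangoldt k : ℝ) : ℂ)) =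
      ((ps (Real.exp y) : ℝ) : ℂ) := by
    unfold ps
    push_cast
    rfl
  have hpow : ((Real.exp y : ℝ) : ℂ) ^ (-(s + 1)) = Complex.exp ((y : ℂ) * (-(s + 1))) := by
    rw [Complex.cpow_def_of_ne_zero (by exact_mod_cast (Real.exp_pos y).ne'),
      ← Complex.ofReal_log (Real.exp_pos y).le, Real.log_exp]
  show ((ps (Real.exp y) : ℝ) : ℂ) * Complex.exp (-(s * y)) =
    |Real.exp y| • ((∑ k ∈ Finset.Icc 1 ⌊Real.exp y⌋₊,
    ((ArithmeticFunction.vonMangoldt k : ℝ) : ℂ)) * ((Real.exp y : ℝ) : ℂ) ^ (-(s + 1)))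
  rw [hMx, hpow, abs_of_pos (Real.exp_pos _), Complex.real_smul, Complex.ofReal_exp,
    mul_left_comm, ← Complex.exp_add]
  congr 2
  ring

theorem lapC_exp {z : ℂ} (hz : 1 < z.re) : lapC Real.exp z = 1 / (z - 1) := by
  have h1 := integral_exp_mul_complex_Ioi (a := 1 - z) (by
    rw [Complex.sub_re, Complex.one_re]; linarith) 0
  have hne : z - 1 ≠ 0 := by
    intro h
    have := congrArg Complex.re h
    rw [Complex.sub_re, Complex.one_re, Complex.zero_re] at this
    linarith
  unfold lapC
  have h2 : (∫ u in Ioi (0 : ℝ), ((Real.exp u : ℝ) : ℂ) * Complex.exp (-(z * u))) =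
      ∫ x : ℝ in Ioi 0, Complex.exp ((1 - z) * x) := by
    apply setIntegral_congr_fun measurableSet_Ioi
    intro y _
    show ((Real.exp y : ℝ) : ℂ) * Complex.exp (-(z * y)) = Complex.exp ((1 - z) * y)
    rw [Complex.ofReal_exp, ← Complex.exp_add]
    congr 1
    ring
  rw [h2, h1, Complex.ofReal_zero, mul_zero, Complex.exp_zero]
  have hne' : (1 : ℂ) - z ≠ 0 := by
    intro h
    apply hne
    linear_combination -h
  field_simp
  ring

theorem deriv_zeta1 {z : ℂ} (hz : z ≠ 1) :
    deriv riemannZeta₁ z = riemannZeta z + (z - 1) * deriv riemannZeta z := by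
  have h1 : riemannZeta₁ =ᶠ[𝓝 z] fun s => (s - 1) * riemannZeta s := by
    filter_upwards [isOpen_ne.mem_nhds hz] with s hs
    exact zeta1_eq hs
  rw [h1.deriv_eq]
  have h2 : HasDerivAt (fun s : ℂ => s - 1) 1 z := (hasDerivAt_id z).sub_const 1
  have h3 := h2.mul (differentiableAt_riemannZeta hz).hasDerivAt
  have h4 : HasDerivAt (fun s : ℂ => (s - 1) * riemannZeta s)
      (1 * riemannZeta z + (z - 1) * deriv riemannZeta z) z := h3
  rw [h4.deriv, one_mul]

theorem g_eq {z : ℂ} (hz : 1 < z.re) :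
    z * riemannZeta₁ z * lapC gP z = -(deriv riemannZeta₁ z + riemannZeta₁ z) := by
  have hz1 : z ≠ 1 := by
    rintro rfl
    simp at hz
  have hz0 : z ≠ 0 := by
    rintro rfl
    simp at hz
    linarith
  have h3 : riemannZeta z ≠ 0 := riemannZeta_ne_zero_of_one_le_re hz.le
  have hs : lapC gP z = lapC (fun v => ps (Real.exp v)) z - lapC Real.exp z := by
    unfold lapC
    rw [← integral_sub ((ps_lint hz).complex ps_meas)
      (LInt.complex Real.measurable_exp (by simpa using lint_exp (c := 1) hz))]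
    refine integral_congr_ae (Eventually.of_forall fun v => ?_)
    simp only [gP]
    push_cast
    ring
  have h4 := lapC_ps hz
  have h5 := lapC_exp hz
  have hz1' : z - 1 ≠ 0 := sub_ne_zero.2 hz1
  rw [deriv_zeta1 hz1, zeta1_eq hz1, hs, h5]
  have h6 : lapC (fun v => ps (Real.exp v)) z = -deriv riemannZeta z / riemannZeta z / z := by
    rw [← h4, mul_div_cancel_left₀ _ hz0]
  rw [h6]
  field_simp
  ring

/-- the identity extends to the half plane of absolute convergence -/
theorem g_ext {a : ℝ} (h : ∀ w > a, LInt gP w) {z : ℂ} (hz : a < z.re) :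
    z * riemannZeta₁ z * lapC gP z = -(deriv riemannZeta₁ z + riemannZeta₁ z) := by
  have hd : DifferentiableOn ℂ (fun z => z * riemannZeta₁ z * lapC gP z) {z : ℂ | a < z.re} := by
    intro z hz
    have hz' : a < z.re := hz
    exact ((differentiableAt_id.mul (differentiable_riemannZeta₁ z)).mul
      (lapC_differentiableAt g_meas h hz')).differentiableWithinAt
  have h1 : AnalyticOnNhd ℂ (fun z : ℂ => -(deriv riemannZeta₁ z + riemannZeta₁ z)) {z : ℂ | a < z.re} := by
    intro z _
    exact ((differentiable_riemannZeta₁.analyticAt z).deriv.add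
      (differentiable_riemannZeta₁.analyticAt z)).neg
  have h2 := hd.analyticOnNhd (isOpen_half a)
  have hz0 : a < (((max a 1 + 1 : ℝ) : ℂ)).re := by
    rw [Complex.ofReal_re]
    have := le_max_left a 1
    linarith
  have h3 := h2.eqOn_of_preconnected_of_eventuallyEq h1 (preconn_half a) hz0 ?_
  · exact h3 hz
  · have hz1 : 1 < (((max a 1 + 1 : ℝ) : ℂ)).re := by
      rw [Complex.ofReal_re]
      have := le_max_right a 1
      linarith
    filter_upwards [(isOpen_half 1).mem_nhds hz1] with z hz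
    exact g_eq hz

/-- one side gives the other side -/
theorem other_side {e : ℝ} (h : ∀ w > (1 / 2 : ℝ), LInt (fun u => max (e * gP u) 0) w) :
    ∀ w > (1 / 2 : ℝ), LInt (fun u => max (-(e * gP u)) 0) w := by
  have hme : Measurable (fun u => e * gP u) := g_meas.const_mul e
  obtain ⟨G, hG⟩ : ∃ G : ℝ → ℝ, G = fun w : ℝ =>
      (lapC (fun u => max (e * gP u) 0) (w : ℂ) - (e : ℂ) * (-(deriv riemannZeta₁ (w : ℂ) + riemannZeta₁ (w : ℂ)) /
        ((w : ℂ) * riemannZeta₁ w))).re :=
    ⟨_, rfl⟩
  have hlan := TH988.RB.landau_lap (f := fun u => max (-(e * gP u)) 0)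
    (hme.neg.max measurable_const) (fun u _ => le_max_right _ _) (a := 1 / 2) (w1 := 1)
    (fun w hw => by
      have h1 : LInt (fun u => -(e * gP u)) w := by
        have := (g_lint hw).const_mul (-e)
        simpa only [neg_mul] using this
      exact LInt.posPart (hme.neg) h1)
    (g := G) (fun w hw => ?_) (fun w hw hw2 => ?_)
  · exact hlan.1
  · rw [hG]
    refine re_analytic (f := fun z : ℂ => lapC (fun u => max (e * gP u) 0) z -
      (e : ℂ) * (-(deriv riemannZeta₁ z + riemannZeta₁ z) / (z * riemannZeta₁ z))) ?_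
    have hw0 : (0 : ℝ) < w := by linarith
    have h1 : AnalyticAt ℂ (fun z : ℂ => lapC (fun u => max (e * gP u) 0) z) (w : ℂ) := by
      have hdiff : DifferentiableOn ℂ (fun z : ℂ => lapC (fun u => max (e * gP u) 0) z)
          {z : ℂ | (1 / 2 : ℝ) < z.re} := by
        intro z hz
        exact (lapC_differentiableAt (hme.max measurable_const) h hz).differentiableWithinAt
      exact hdiff.analyticAt ((isOpen_half (1 / 2)).mem_nhds
        (by show (1 / 2 : ℝ) < (w : ℂ).re; rw [Complex.ofReal_re]; exact hw))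
    have h2 : AnalyticAt ℂ (fun z : ℂ => -(deriv riemannZeta₁ z + riemannZeta₁ z) / (z * riemannZeta₁ z)) (w : ℂ) := by
      refine ((differentiable_riemannZeta₁.analyticAt _).deriv.add
        (differentiable_riemannZeta₁.analyticAt _)).neg.div (analyticAt_id.mul
        (differentiable_riemannZeta₁.analyticAt _)) ?_
      exact mul_ne_zero (by exact_mod_cast hw0.ne') (zeta1_real hw0)
    exact h1.sub (analyticAt_const.mul h2)
  · have hw0 : (0 : ℝ) < w := by linarith
    have h1 := g_lint hw
    have h2 := h w hw2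
    have h3 : (fun u => max (-(e * gP u)) 0) = fun u => max (e * gP u) 0 - e * gP u := by
      funext u
      rcases le_total 0 (e * gP u) with h4 | h4
      · rw [max_eq_right (by linarith), max_eq_left h4, sub_self]
      · rw [max_eq_left (by linarith), max_eq_right h4, zero_sub]
    have h5 : (-(deriv riemannZeta₁ (w : ℂ) + riemannZeta₁ (w : ℂ)) / ((w : ℂ) * riemannZeta₁ w)) = lapC gP w := by
      have h6 := g_eq (z := (w : ℂ)) (by rw [Complex.ofReal_re]; exact hw)
      rw [← h6, mul_div_cancel_left₀]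
      exact mul_ne_zero (by exact_mod_cast hw0.ne') (zeta1_real hw0)
    rw [h3, lap_sub h2 (h1.const_mul e), lap_const_mul, hG]
    simp only []
    rw [h5, lapC_ofReal, lapC_ofReal]
    rw [← Complex.ofReal_mul, ← Complex.ofReal_sub, Complex.ofReal_re]

/-- no zeros to the right of the critical line -/
theorem no_zero (h : ∀ w > (1 / 2 : ℝ), LInt gP w) {ρ : ℂ} (hρ : 1 / 2 < ρ.re) : riemannZeta₁ ρ ≠ 0 := by
  intro h0
  have hF := differentiable_riemannZeta₁.analyticAt ρ
  have hL : AnalyticAt ℂ (fun z : ℂ => -(1 + z * lapC gP z)) ρ := by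
    have hdiff : DifferentiableOn ℂ (fun z : ℂ => -(1 + z * lapC gP z)) {z : ℂ | (1 / 2 : ℝ) < z.re} := by
      intro z hz
      exact (((differentiableAt_const 1).add (differentiableAt_id.mul
        (lapC_differentiableAt g_meas h hz))).neg).differentiableWithinAt
    exact hdiff.analyticAt ((isOpen_half (1 / 2)).mem_nhds hρ)
  have heq : deriv riemannZeta₁ =ᶠ[𝓝 ρ] riemannZeta₁ * (fun z : ℂ => -(1 + z * lapC gP z)) := by
    filter_upwards [(isOpen_half (1 / 2)).mem_nhds hρ] with z hz
    have h1 := g_ext h hz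
    show deriv riemannZeta₁ z = riemannZeta₁ z * (-(1 + z * lapC gP z))
    linear_combination h1
  have h1 : analyticOrderAt (deriv riemannZeta₁) ρ + 1 = analyticOrderAt riemannZeta₁ ρ := by
    have := hF.analyticOrderAt_deriv_add_one
    simpa [h0] using this
  rw [analyticOrderAt_congr heq, analyticOrderAt_mul hF hL] at h1
  have htop : analyticOrderAt riemannZeta₁ ρ = ⊤ := by
    by_contra hne
    obtain ⟨n, hn⟩ := ENat.ne_top_iff_exists.1 hne
    rw [← hn] at h1
    have h2 : ((n : ℕ∞) + analyticOrderAt (fun z : ℂ => -(1 + z * lapC gP z)) ρ) + 1 ≤ n := h1.le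
    have h3 : (n : ℕ∞) + 1 ≤ n := le_trans (by gcongr; exact le_self_add) h2
    exact absurd h3 (by
      rw [not_le]
      exact_mod_cast Nat.lt_succ_self n)
  rw [analyticOrderAt_eq_top] at htop
  have h4 : AnalyticOnNhd ℂ riemannZeta₁ univ := fun z _ => differentiable_riemannZeta₁.analyticAt z
  have h5 := h4.eqOn_zero_of_preconnected_of_eventuallyEq_zero isPreconnected_univ (mem_univ ρ) htop
  have h6 := h5 (mem_univ (1 : ℂ))
  rw [riemannZeta₁_one] at h6
  exact one_ne_zero h6

theorem rh (h : ∀ w > (1 / 2 : ℝ), LInt gP w) {ρ : ℂ} (h0 : riemannZeta₁ ρ = 0) (h1 : 0 < ρ.re) :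
    ρ.re = 1 / 2 := by
  by_contra hne
  rcases lt_or_gt_of_ne hne with h3 | h3
  · have hn : ∀ n : ℕ, ρ ≠ -n := by
      intro n hn
      rw [hn] at h1
      simp at h1
      have : (0 : ℝ) ≤ n := n.cast_nonneg
      linarith
    have hρ1 : ρ ≠ 1 := by
      rintro rfl
      rw [riemannZeta₁_one] at h0
      exact one_ne_zero h0
    have hρ0 : ρ ≠ 0 := by
      rintro rfl
      simp at h1
    have h00 : riemannZeta ρ = 0 := by
      rw [zeta1_eq hρ1] at h0
      exact (mul_eq_zero.1 h0).resolve_left (sub_ne_zero.2 hρ1)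
    have h4 := riemannZeta_one_sub hn hρ1
    rw [h00, mul_zero] at h4
    refine no_zero h (ρ := 1 - ρ) ?_ ?_
    · rw [Complex.sub_re, Complex.one_re]
      linarith
    · rw [zeta1_eq (by intro hh; apply hρ0; linear_combination -hh), h4, mul_zero]
  · exact no_zero h h3 h0

end Tr

open Tr Filter Topology Set MeasureTheory Pool.Agent.W263.BSD in
open Pool.Agent.Y853.HM (lint_abs lint_of_abs) in
theorem t_TRP : P_TRP := by
  intro s hs hb
  have hs1 : |s| = 1 := by rcases hs with rfl | rfl <;> simp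
  have hss : s * s = 1 := by rcases hs with rfl | rfl <;> norm_num
  have hpos : ∀ w > (1 / 2 : ℝ), LInt (fun u => max (s * gP u) 0) w := by
    intro w hw
    have hε : 0 < (w - 1 / 2) / 2 := by linarith
    obtain ⟨Y, hY⟩ := eventually_atTop.1 (hb _ hε)
    set V := Real.log (max Y 1) with hV
    have hY1 : 0 < max Y 1 := lt_of_lt_of_le one_pos (le_max_right _ _)
    refine lint_dom ((g_meas.const_mul s).max measurable_const) (c := 1 / 2 + (w - 1 / 2) / 2)
      (D := max 1 ((Real.log 4 + 5) * Real.exp V)) (by linarith) fun v hv => ?_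
    rw [abs_of_nonneg (le_max_right _ _)]
    have hD0 : 0 ≤ max 1 ((Real.log 4 + 5) * Real.exp V) := zero_le_one.trans (le_max_left _ _)
    refine max_le ?_ (mul_nonneg hD0 (Real.exp_pos _).le)
    rcases le_total V v with h1 | h1
    · have h2 : Y ≤ Real.exp v := by
        refine (le_max_left Y 1).trans ?_
        rw [← Real.log_le_iff_le_exp hY1]
        exact h1
      have h3 := hY _ h2
      rw [← Real.exp_mul, mul_comm v] at h3
      calc s * gP v ≤ Real.exp ((1 / 2 + (w - 1 / 2) / 2) * v) := h3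
        _ = 1 * Real.exp ((1 / 2 + (w - 1 / 2) / 2) * v) := (one_mul _).symm
        _ ≤ _ := mul_le_mul_of_nonneg_right (le_max_left _ _) (Real.exp_pos _).le
    · have h4 : s * gP v ≤ (Real.log 4 + 5) * Real.exp V := by
        calc s * gP v ≤ |s * gP v| := le_abs_self _
          _ = |gP v| := by rw [abs_mul, hs1, one_mul]
          _ ≤ (Real.log 4 + 5) * Real.exp v := g_abs v
          _ ≤ _ := mul_le_mul_of_nonneg_left (Real.exp_le_exp.2 h1) (by linarith [log4])
      have h5 : 1 ≤ Real.exp ((1 / 2 + (w - 1 / 2) / 2) * v) := Real.one_le_exp (by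
        have : 0 ≤ 1 / 2 + (w - 1 / 2) / 2 := by linarith
        exact mul_nonneg this hv.le)
      calc s * gP v ≤ max 1 ((Real.log 4 + 5) * Real.exp V) := h4.trans (le_max_right _ _)
        _ = max 1 ((Real.log 4 + 5) * Real.exp V) * 1 := (mul_one _).symm
        _ ≤ _ := mul_le_mul_of_nonneg_left h5 hD0
  have hneg := other_side hpos
  have hg : ∀ w > (1 / 2 : ℝ), LInt gP w := by
    intro w hw
    have h1 := lint_abs (hpos w hw) (hneg w hw)
    have h2 := (lint_of_abs (g_meas.const_mul s) h1).const_mul s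
    have h3 : (fun u => s * (s * gP u)) = gP := by
      funext u
      rw [← mul_assoc, hss, one_mul]
    rwa [h3] at h2
  exact ⟨fun w hw => hg w hw, fun ρ h0 h1 => rh hg h0 h1, fun z hz => g_ext hg hz⟩

end Pool.Agent.H158.GP
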