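import Pool.Agent.H158.GP.Up
import Pool.Agent.H158.GP.Tr
import Pool.Agent.H158.GP.Lnd
import Pool.Agent.H158.GP.Amp

set_option autoImplicit false

/-! A one-sided bound for `ψ(x) - x` produces close relations between the ordinates. -/

namespace Pool.Agent.H158.GP

open Filter Topology Set MeasureTheory Complex
open Pool.Agent.W263.BSD Pool.Agent.Y853.HM Pool.Agent.H198.GM Pool.Agent.H158.GM

theorem OneSidedP.pow {s B a : ℝ} (hB : 0 < B) (ha1 : a ≤ 2) (h : OneSidedP s B a) :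
    ∀ ε : ℝ, 0 < ε → ∀ᶠ y : ℝ in atTop, s * (ps y - y) ≤ y ^ (1 / 2 + ε) := by
  intro ε hε
  have h1 := (isLittleO_log_rpow_rpow_atTop (2 : ℝ) hε).bound (c := 1 / B) (by positivity)
  have hlll : Tendsto (fun x : ℝ => Real.log (Real.log (Real.log x))) atTop atTop :=
    Real.tendsto_log_atTop.comp (Real.tendsto_log_atTop.comp Real.tendsto_log_atTop)
  have hll : Tendsto (fun x : ℝ => Real.log (Real.log x)) atTop atTop :=
    Real.tendsto_log_atTop.comp Real.tendsto_log_atTop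
  filter_upwards [h, h1, hlll.eventually_ge_atTop 1, hll.eventually_ge_atTop 1, Real.tendsto_log_atTop.eventually_ge_atTop 1,
    eventually_gt_atTop 0] with x g1 g2 g3 g4 g5 g6
  refine g1.trans ?_
  rw [Real.norm_of_nonneg (Real.rpow_nonneg (by linarith) _), Real.norm_of_nonneg (Real.rpow_nonneg g6.le _)] at g2
  have h2 : Real.log (Real.log (Real.log x)) ≤ Real.log x := by
    have h3 := Real.log_le_sub_one_of_pos (show 0 < Real.log (Real.log x) by linarith)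
    have h4 := Real.log_le_sub_one_of_pos (show 0 < Real.log x by linarith)
    linarith
  have h3 : Real.log (Real.log (Real.log x)) ^ a ≤ Real.log x ^ (2 : ℝ) := by
    calc Real.log (Real.log (Real.log x)) ^ a ≤ Real.log (Real.log (Real.log x)) ^ (2 : ℝ) :=
          Real.rpow_le_rpow_of_exponent_le g3 ha1
      _ ≤ Real.log x ^ (2 : ℝ) := Real.rpow_le_rpow (by linarith) h2 (by norm_num)
  have h4 : B * Real.log x ^ (2 : ℝ) ≤ x ^ ε := by
    have h5 := mul_le_mul_of_nonneg_left g2 hB.le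
    rwa [← mul_assoc, mul_one_div, div_self hB.ne', one_mul] at h5
  rw [Real.rpow_add g6, ← Real.sqrt_eq_rpow]
  have hs0 := Real.sqrt_nonneg x
  calc B * (Real.sqrt x * Real.log (Real.log (Real.log x)) ^ a)
      = Real.sqrt x * (B * Real.log (Real.log (Real.log x)) ^ a) := by ring
    _ ≤ Real.sqrt x * (B * Real.log x ^ (2 : ℝ)) :=
        mul_le_mul_of_nonneg_left (mul_le_mul_of_nonneg_left h3 hB.le) hs0
    _ ≤ Real.sqrt x * x ^ ε := mul_le_mul_of_nonneg_left h4 hs0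

/-- **Main inequality.** -/
theorem mainP : ∃ c : ℝ, 0 < c ∧ ∀ A : ℝ, 1 ≤ A → ∀ s B : ℝ, (s = 1 ∨ s = -1) → 0 < B → OneSidedP s B 2 →
    B < c / A ^ 2 → ∀ᶠ T : ℝ in atTop, ∃ R : Finset ℝ,
      (∀ t ∈ R, 0 < t ∧ t ≤ T ∧ riemannZeta (1 / 2 + t * I) = 0 ∧ Related A T t) ∧
      c * Real.log T ^ 2 ≤ ∑ t ∈ R, 1 / t := by
  classical
  obtain ⟨c, hc, hamp⟩ := t_AMPP
  obtain ⟨CL, hCL, hl1, hl2⟩ := t_LNDP
  have hlnd : Lnd CL := ⟨hl1, hl2⟩
  refine ⟨c / 2000, by positivity, ?_⟩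
  intro A hA s B hs hB h hBc
  obtain ⟨hg, hrh, hid⟩ := t_TRP s hs (h.pow hB le_rfl)
  have htr : Trp := ⟨hrh, hid⟩
  have hA0 : 0 < A := by linarith
  have hb1 : B * (A + 4) ^ (2 : ℝ) ≤ c / 80 := by
    have e : (A + 4) ^ (2 : ℝ) = (A + 4) ^ 2 := by exact_mod_cast Real.rpow_natCast (A + 4) 2
    rw [e]
    have h2 : (A + 4) ^ 2 ≤ 25 * A ^ 2 := by nlinarith
    rw [lt_div_iff₀ (by positivity)] at hBc
    calc B * (A + 4) ^ 2 ≤ B * (25 * A ^ 2) := mul_le_mul_of_nonneg_left h2 hB.le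
      _ = 25 * (B * A ^ 2) := by ring
      _ ≤ 25 * (c / 2000) := by linarith
      _ = c / 80 := by ring
  obtain ⟨K', hup0⟩ := up_scaleP hs hB (by norm_num) le_rfl h htr hCL hlnd hg hA (t₀ := 16) (by norm_num)
  have E11 : ∀ᶠ T : ℝ in atTop, 2 * CL * T ^ 2 ≤ Real.exp T := by
    have h1 := (isLittleO_rpow_exp_atTop 2).bound (c := 1 / (2 * CL)) (by positivity)
    filter_upwards [h1, eventually_ge_atTop 0] with T h2 h4
    rw [Real.norm_of_nonneg (Real.rpow_nonneg h4 _), Real.norm_of_nonneg (Real.exp_pos T).le] at h2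
    have e : T ^ (2 : ℝ) = T ^ 2 := by exact_mod_cast Real.rpow_natCast T 2
    rw [e] at h2
    have h3 := mul_le_mul_of_nonneg_left h2 (show 0 ≤ 2 * CL by positivity)
    rwa [← mul_assoc, mul_one_div, div_self (by positivity), one_mul] at h3
  have E12 : ∀ᶠ T : ℝ in atTop, K' ≤ c / 16 * Real.log T ^ 2 := by
    have h1 : Tendsto (fun T : ℝ => c / 16 * Real.log T ^ 2) atTop atTop :=
      ((tendsto_pow_atTop (by norm_num)).comp Real.tendsto_log_atTop).const_mul_atTop (by positivity)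
    exact h1.eventually_ge_atTop _
  filter_upwards [hup0, hamp, E11, E12, eventually_ge_atTop (20 : ℝ),
    Real.tendsto_log_atTop.eventually_ge_atTop 1] with T hT2 hT3 hT11 hT12 hT5 hlog1
  obtain ⟨S, hS, hcard, hsum⟩ := hT3
  have hT0 : 0 < T := by linarith
  have e2 : Real.log T ^ (2 : ℝ) = Real.log T ^ 2 := by exact_mod_cast Real.rpow_natCast (Real.log T) 2
  rw [e2] at hT2 hsum
  obtain ⟨S₁, hS₁⟩ : ∃ S₁ : Finset ℝ, S₁ = S.filter (fun t => ¬ Related A T t) := ⟨_, rfl⟩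
  obtain ⟨R, hR⟩ : ∃ R : Finset ℝ, R = S.filter (fun t => Related A T t) := ⟨_, rfl⟩
  have hS₁S : S₁ ⊆ S := by rw [hS₁]; exact Finset.filter_subset _ _
  have hfree : Free A T S₁ := by
    intro S' hS' ε' γ₀ hcl
    obtain ⟨t, ht⟩ : S'.Nonempty := Finset.card_pos.1 (by have := hcl.1; omega)
    have h1 := hS' ht
    rw [hS₁, Finset.mem_filter] at h1
    exact h1.2 ⟨S', ε', γ₀, ht, hcl⟩
  have hup := hT2 S₁ hfree (fun t ht => hS t (hS₁S ht)) (le_trans (by exact_mod_cast Finset.card_le_card hS₁S) hcard)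
  obtain ⟨δ, hδ⟩ : ∃ δ : ℝ, δ = Real.exp (-(T ^ (A + 4))) := ⟨_, rfl⟩
  rw [← hδ] at hup
  have hδ0 : 0 < δ := by rw [hδ]; exact Real.exp_pos _
  have hTA : T ≤ T ^ (A + 4) := by
    calc T = T ^ (1 : ℝ) := (Real.rpow_one T).symm
      _ ≤ T ^ (A + 4) := Real.rpow_le_rpow_of_exponent_le (by linarith) (by linarith)
  have hδi : δ⁻¹ = Real.exp (T ^ (A + 4)) := by rw [hδ, ← Real.exp_neg, neg_neg]
  have hδ20 : δ ≤ 1 / 20 := by
    rw [← inv_inv δ, one_div]
    refine inv_anti₀ (by norm_num) ?_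
    rw [hδi]
    have := Real.add_one_le_exp (T ^ (A + 4))
    linarith
  have hCδ : ∀ t ∈ S, CL * Real.log (t + 5) * δ ≤ 1 / 2 := by
    intro t ht
    have h16 := (hS t ht).1
    have htT := (hS t ht).2.1
    have h1 : Real.log (t + 5) ≤ T ^ 2 := by
      have h2 := Real.log_le_sub_one_of_pos (show 0 < t + 5 by linarith)
      nlinarith
    have h2 : 2 * CL * T ^ 2 * δ ≤ 1 := by
      rw [← le_div_iff₀ hδ0, one_div, hδi]
      exact hT11.trans (Real.exp_le_exp.2 hTA)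
    have h3 : CL * Real.log (t + 5) * δ ≤ CL * T ^ 2 * δ := by gcongr
    linarith
  have hlow : 1 / 4 * ∑ t ∈ S₁, 1 / t ≤ δ * ∑ t ∈ S₁, ‖lapC gP (pt t + δ)‖ := by
    rw [Finset.mul_sum, Finset.mul_sum]
    exact Finset.sum_le_sum fun t ht =>
      lap_lowP htr hlnd (hS t (hS₁S ht)).1 hδ0 hδ20 (hS t (hS₁S ht)).2.2 (hCδ t (hS₁S ht))
  have hsplit : ∑ t ∈ R, 1 / t + ∑ t ∈ S₁, 1 / t = ∑ t ∈ S, 1 / t := by
    rw [hR, hS₁]
    exact Finset.sum_filter_add_sum_filter_not S _ _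
  have hL0 : 0 ≤ Real.log T ^ 2 := by positivity
  have h5 : 5 * (B * (A + 4) ^ (2 : ℝ)) * Real.log T ^ 2 ≤ c / 16 * Real.log T ^ 2 :=
    mul_le_mul_of_nonneg_right (by linarith) hL0
  have hRS : ∀ t ∈ R, t ∈ S ∧ Related A T t := by
    intro t ht
    rw [hR, Finset.mem_filter] at ht
    exact ht
  refine ⟨R, fun t ht => ⟨by linarith [(hS t (hRS t ht).1).1], (hS t (hRS t ht).1).2.1, (hS t (hRS t ht).1).2.2,
    (hRS t ht).2⟩, ?_⟩
  have h6 : c / 2000 * Real.log T ^ 2 ≤ c / 2 * Real.log T ^ 2 := mul_le_mul_of_nonneg_right (by linarith) hL0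
  linarith

end Pool.Agent.H158.GP
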