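import Pool.Agent.H158.GP.Low

set_option autoImplicit false

/-! The upper bound for the amplitudes of free ordinates, prime number theorem. -/

namespace Pool.Agent.H158.GP

open Filter Topology Set MeasureTheory Complex
open Pool.Agent.W263.BSD Pool.Agent.Y853.HM Pool.Agent.H198.GM Pool.Agent.H158.GM

/-- the one-sided pointwise bound -/
def OneSidedP (s B a : ℝ) : Prop :=
  ∀ᶠ x : ℝ in atTop, s * (ps x - x) ≤ B * (Real.sqrt x * Real.log (Real.log (Real.log x)) ^ a)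

theorem OneSidedP.ev {s B a : ℝ} (h : OneSidedP s B a) :
    ∀ᶠ v : ℝ in atTop, s * gP v * Real.exp (-(v / 2)) ≤ B * Real.log (Real.log v) ^ a := by
  filter_upwards [Real.tendsto_exp_atTop.eventually h] with v hv
  rw [Real.log_exp] at hv
  have h2 := mul_le_mul_of_nonneg_right hv (Real.exp_pos (-(v / 2))).le
  have e1 : Real.sqrt (Real.exp v) = Real.exp (v / 2) := by
    rw [Real.sqrt_eq_iff_mul_self_eq (Real.exp_pos _).le (Real.exp_pos _).le, ← Real.exp_add]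
    congr 1
    ring
  have e2 : Real.exp (v / 2) * Real.exp (-(v / 2)) = 1 := by
    rw [← Real.exp_add, add_neg_cancel, Real.exp_zero]
  rw [e1] at h2
  unfold gP
  calc s * (ps (Real.exp v) - Real.exp v) * Real.exp (-(v / 2))
      ≤ B * (Real.exp (v / 2) * Real.log (Real.log v) ^ a) * Real.exp (-(v / 2)) := h2
    _ = B * Real.log (Real.log v) ^ a * (Real.exp (v / 2) * Real.exp (-(v / 2))) := by ring
    _ = _ := by rw [e2, mul_one]

theorem ps_nonneg (x : ℝ) : 0 ≤ ps x := Finset.sum_nonneg fun _ _ => ArithmeticFunction.vonMangoldt_nonneg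

theorem ps_mono {x y : ℝ} (h : x ≤ y) : ps x ≤ ps y := by
  unfold ps
  refine Finset.sum_le_sum_of_subset_of_nonneg ?_ fun _ _ _ => ArithmeticFunction.vonMangoldt_nonneg
  exact Finset.Icc_subset_Icc_right (Nat.floor_le_floor h)

theorem fP_le {s : ℝ} (hs : s = 1 ∨ s = -1) {v v0 : ℝ} (hv : 0 ≤ v) (hv0 : v ≤ v0) :
    s * gP v * Real.exp (-(v / 2)) ≤ ps (Real.exp v0) + Real.exp v0 := by
  have h1 := ps_nonneg (Real.exp v)
  have h2 := ps_mono (Real.exp_le_exp.2 hv0)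
  have h3 := Real.exp_le_exp.2 hv0
  have h4 := Real.exp_pos v
  have h5 : s * gP v ≤ ps (Real.exp v0) + Real.exp v0 := by
    unfold gP
    rcases hs with rfl | rfl <;> linarith
  have h6 : Real.exp (-(v / 2)) ≤ 1 := Real.exp_le_one_iff.2 (by linarith)
  have h7 : 0 ≤ ps (Real.exp v0) + Real.exp v0 := by linarith
  calc s * gP v * Real.exp (-(v / 2)) ≤ (ps (Real.exp v0) + Real.exp v0) * Real.exp (-(v / 2)) :=
        mul_le_mul_of_nonneg_right h5 (Real.exp_pos _).le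
    _ ≤ (ps (Real.exp v0) + Real.exp v0) * 1 := mul_le_mul_of_nonneg_left h6 h7
    _ = _ := mul_one _

theorem qp_key {D v a : ℝ} (ha0 : 0 ≤ a) (ha1 : a ≤ 2) (hD : Real.exp (Real.exp 1) ≤ D) (hv : Real.exp 1 ≤ v) :
    Real.log (Real.log v) ^ a ≤ Real.log (Real.log D) ^ a * (1 + (Real.log D)⁻¹ * (v / D)) ^ 2 := by
  have hl := llog_nn hv
  have hlD := llog_ge hD
  have hv0 : 0 < v := (Real.exp_pos 1).trans_le hv
  have hD0 : 0 < D := (Real.exp_pos _).trans_le hD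
  have hLD : 1 ≤ Real.log D := log_ge (exp_le.trans hD)
  have hLv : 1 ≤ Real.log v := log_ge hv
  obtain ⟨X, hX⟩ : ∃ X : ℝ, X = 1 + (Real.log D)⁻¹ * (v / D) := ⟨_, rfl⟩
  rw [← hX]
  have hX1 : 1 ≤ X := by
    rw [hX]
    have : 0 ≤ (Real.log D)⁻¹ * (v / D) := by positivity
    linarith
  have h1 : Real.log v ≤ Real.log D * X := by
    have h2 : Real.log v = Real.log D + Real.log (v / D) := by
      rw [← Real.log_mul hD0.ne' (by positivity)]
      congr 1
      field_simp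
    have h3 : Real.log (v / D) ≤ v / D := by
      have := Real.log_le_sub_one_of_pos (show 0 < v / D by positivity)
      linarith
    rw [h2, hX, mul_add, mul_one, ← mul_assoc, mul_inv_cancel₀ (by linarith), one_mul]
    linarith
  have h2 : Real.log (Real.log v) ≤ Real.log (Real.log D) * X := by
    have h3 := Real.log_le_log (by linarith) h1
    rw [Real.log_mul (by linarith) (by linarith)] at h3
    have h4 := Real.log_le_sub_one_of_pos (show 0 < X by linarith)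
    nlinarith
  calc Real.log (Real.log v) ^ a ≤ (Real.log (Real.log D) * X) ^ a := Real.rpow_le_rpow hl h2 ha0
    _ = Real.log (Real.log D) ^ a * X ^ a := Real.mul_rpow (by linarith) (by linarith)
    _ ≤ Real.log (Real.log D) ^ a * X ^ 2 := by
        refine mul_le_mul_of_nonneg_left ?_ (Real.rpow_nonneg (by linarith) _)
        calc X ^ a ≤ X ^ (2 : ℝ) := Real.rpow_le_rpow_of_exponent_le hX1 ha1
          _ = X ^ 2 := by exact_mod_cast Real.rpow_natCast X 2

/-- the inequality at one scale -/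
theorem up_scaleP {s B a : ℝ} (hs : s = 1 ∨ s = -1) (hB : 0 < B) (ha0 : 0 ≤ a) (ha1 : a ≤ 2) (h : OneSidedP s B a)
    (htr : Trp) {CL : ℝ} (hCL : 0 < CL) (hlnd : Lnd CL) (hg : ∀ w : ℝ, 1 / 2 < w → LInt gP w) {A : ℝ} (hA : 1 ≤ A)
    {t₀ : ℝ} (ht₀ : 0 < t₀) : ∃ K' : ℝ, ∀ᶠ T : ℝ in atTop, ∀ S : Finset ℝ, Free A T S →
      (∀ t ∈ S, t₀ ≤ t ∧ t ≤ T ∧ riemannZeta (1 / 2 + t * I) = 0) → (S.card : ℝ) ≤ T ^ 3 →
      Real.exp (-(T ^ (A + 4))) * ∑ t ∈ S, ‖lapC gP (pt t + (Real.exp (-(T ^ (A + 4))) : ℝ))‖ ≤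
        K' + 5 * (B * (A + 4) ^ a) * Real.log T ^ a := by
  obtain ⟨v1, hv1⟩ := eventually_atTop.1 h.ev
  obtain ⟨v0, hv0⟩ : ∃ v0 : ℝ, v0 = max v1 (Real.exp 1) := ⟨_, rfl⟩
  obtain ⟨K, hK⟩ : ∃ K : ℝ, K = ps (Real.exp v0) + Real.exp v0 := ⟨_, rfl⟩
  have hK0 : 0 < K := by
    rw [hK]
    have := ps_nonneg (Real.exp v0)
    have := Real.exp_pos v0
    linarith
  have hA1 : 0 < A + 4 := by linarith
  refine ⟨K + 3, ?_⟩
  -- eventual conditions
  have E6 : ∀ᶠ T : ℝ in atTop, K + 5 * B * T ^ (2 * (A + 4)) ≤ Real.exp T := by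
    have h1 := (isLittleO_rpow_exp_atTop (2 * (A + 4))).bound (c := 1 / (2 * (5 * B))) (by positivity)
    filter_upwards [h1, Real.tendsto_exp_atTop.eventually_ge_atTop (2 * K), eventually_ge_atTop 0] with T h2 h3 h4
    rw [Real.norm_of_nonneg (Real.rpow_nonneg h4 _), Real.norm_of_nonneg (Real.exp_pos T).le] at h2
    have h5 := mul_le_mul_of_nonneg_left h2 (show 0 ≤ 5 * B by positivity)
    have e : 5 * B * (1 / (2 * (5 * B)) * Real.exp T) = Real.exp T / 2 := by field_simp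
    rw [e] at h5
    linarith
  have E7 : ∀ᶠ T : ℝ in atTop, 2 * CL * T ^ 4 ≤ Real.exp T := by
    have h1 := (isLittleO_rpow_exp_atTop 4).bound (c := 1 / (2 * CL)) (by positivity)
    filter_upwards [h1, eventually_ge_atTop 0] with T h2 h4
    rw [Real.norm_of_nonneg (Real.rpow_nonneg h4 _), Real.norm_of_nonneg (Real.exp_pos T).le] at h2
    have e : T ^ (4 : ℝ) = T ^ 4 := by exact_mod_cast Real.rpow_natCast T 4
    rw [e] at h2
    have h3 := mul_le_mul_of_nonneg_left h2 (show 0 ≤ 2 * CL by positivity)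
    rwa [← mul_assoc, mul_one_div, div_self (by positivity), one_mul] at h3
  have hδt : Tendsto (fun T : ℝ => Real.exp (-(T ^ (A + 4)))) atTop (𝓝[>] 0) := by
    refine tendsto_nhdsWithin_iff.2 ⟨?_, Eventually.of_forall fun T => mem_Ioi.2 (Real.exp_pos _)⟩
    exact Real.tendsto_exp_atBot.comp (tendsto_neg_atTop_atBot.comp (tendsto_rpow_atTop hA1))
  have E8 := hδt.eventually (lim0P htr)
  have E9 : ∀ᶠ T : ℝ in atTop, Real.exp (-(T ^ A)) ≤ t₀ := by
    have h1 : Tendsto (fun T : ℝ => Real.exp (-(T ^ A))) atTop (𝓝 0) :=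
      Real.tendsto_exp_atBot.comp (tendsto_neg_atTop_atBot.comp (tendsto_rpow_atTop (by linarith)))
    exact h1.eventually_le_const ht₀
  filter_upwards [E6, E7, E8, E9, eventually_ge_atTop (20 : ℝ),
    Real.tendsto_log_atTop.eventually_ge_atTop 1] with T e6 e7 e8 e9 hT20 hX1 S hC hS hcard
  have hT0 : 0 < T := by linarith
  obtain ⟨P, hP⟩ : ∃ P : ℝ, P = T ^ A := ⟨_, rfl⟩
  have hP1 : T ≤ P := by
    rw [hP]
    calc T = T ^ (1 : ℝ) := (Real.rpow_one T).symm
      _ ≤ T ^ A := Real.rpow_le_rpow_of_exponent_le (by linarith) hA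
  obtain ⟨R, hR⟩ : ∃ R : ℝ, R = T ^ 4 := ⟨_, rfl⟩
  have hR0 : 0 < R := by rw [hR]; positivity
  have hPT : T ^ (A + 4) = P * R := by
    rw [hP, hR, Real.rpow_add hT0]
    congr 1
    exact_mod_cast Real.rpow_natCast T 4
  have hR3 : R = T * T ^ 3 := by rw [hR]; ring
  have hT3 : (20 : ℝ) ≤ T ^ 3 := by
    calc (20 : ℝ) ≤ T := hT20
      _ ≤ T ^ 3 := le_self_pow₀ (by linarith) (by norm_num)
  have hPR3 : 20 * (P * T ^ 3) ≤ P * R := by
    rw [hR3]
    have h1 : 0 ≤ P * T ^ 3 := mul_nonneg (by linarith) (by linarith)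
    have h2 : 20 * (P * T ^ 3) ≤ T * (P * T ^ 3) := mul_le_mul_of_nonneg_right hT20 h1
    calc 20 * (P * T ^ 3) ≤ T * (P * T ^ 3) := h2
      _ = P * (T * T ^ 3) := by ring
  have hPP3 : P ≤ P * T ^ 3 := le_mul_of_one_le_right (by linarith) (by linarith)
  have hTP3 : T ^ 3 ≤ P * T ^ 3 := le_mul_of_one_le_left (by positivity) (by linarith)
  have hTT3 : T ≤ T ^ 3 := le_self_pow₀ (by linarith) (by norm_num)
  obtain ⟨δ, hδ⟩ : ∃ δ : ℝ, δ = Real.exp (-(T ^ (A + 4))) := ⟨_, rfl⟩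
  rw [← hδ] at e8 ⊢
  have hδ0 : 0 < δ := by rw [hδ]; exact Real.exp_pos _
  have hδi : δ⁻¹ = Real.exp (P * R) := by rw [hδ, ← Real.exp_neg, neg_neg, hPT]
  have hδ20 : δ ≤ 1 := by
    rw [hδ, Real.exp_le_one_iff, hPT]
    linarith
  have hlogδ : Real.log δ⁻¹ = P * R := by rw [hδi, Real.log_exp]
  have hD : Real.exp (Real.exp 1) ≤ δ⁻¹ := by
    rw [hδi]
    refine Real.exp_le_exp.2 ?_
    have := Real.exp_one_lt_d9
    linarith
  have hSz : ∀ t ∈ S, 0 < t ∧ t ≤ T ∧ riemannZeta (1 / 2 + t * I) = 0 := fun t ht =>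
    ⟨by linarith [(hS t ht).1], (hS t ht).2.1, (hS t ht).2.2⟩
  have hL1 : 1 ≤ Real.log δ⁻¹ := log_ge (exp_le.trans hD)
  have hLL1 : 1 ≤ Real.log (Real.log δ⁻¹) := llog_ge hD
  obtain ⟨Y, hY⟩ : ∃ Y : ℝ, Y = B * Real.log (Real.log δ⁻¹) ^ a := ⟨_, rfl⟩
  have hY0 : 0 ≤ Y := by rw [hY]; exact mul_nonneg hB.le (Real.rpow_nonneg (by linarith) _)
  have hYq : Y ≤ B * Real.log δ⁻¹ ^ 2 := by
    rw [hY]
    refine mul_le_mul_of_nonneg_left ?_ hB.le
    have h1 : Real.log (Real.log δ⁻¹) ≤ Real.log δ⁻¹ := by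
      have := Real.log_le_sub_one_of_pos (show 0 < Real.log δ⁻¹ by linarith)
      linarith
    calc Real.log (Real.log δ⁻¹) ^ a ≤ Real.log (Real.log δ⁻¹) ^ (2 : ℝ) :=
          Real.rpow_le_rpow_of_exponent_le hLL1 ha1
      _ ≤ Real.log δ⁻¹ ^ (2 : ℝ) := Real.rpow_le_rpow (by linarith) h1 (by norm_num)
      _ = Real.log δ⁻¹ ^ 2 := by exact_mod_cast Real.rpow_natCast (Real.log δ⁻¹) 2
  have hη0 : 0 ≤ (Real.log δ⁻¹)⁻¹ := by positivity
  have hη1 : (Real.log δ⁻¹)⁻¹ ≤ 1 := inv_le_one_of_one_le₀ hL1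
  have hnl : ∀ z : ℂ, ‖lapC (fun v => s * gP v) z‖ = ‖lapC gP z‖ := by
    intro z
    rw [lapC_const, norm_mul, Complex.norm_real, Real.norm_eq_abs, s_abs hs, one_mul]
  have hRlog : Real.log (R + 5) ≤ 2 * T ^ 4 := by
    have h1 := Real.log_le_sub_one_of_pos (show 0 < R + 5 by linarith)
    have h2 : T ^ 3 ≤ T ^ 4 := pow_le_pow_right₀ (by linarith) (by norm_num)
    rw [hR] at h1 ⊢
    linarith
  have hRlog0 : 0 ≤ Real.log (R + 5) := Real.log_nonneg (by linarith)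
  have hQ : 2 * (CL * Real.log (R + 5) * Real.exp P + 1) ≤ Real.exp (2 + T + P) := by
    have h1 : CL * Real.log (R + 5) ≤ Real.exp T := by
      calc CL * Real.log (R + 5) ≤ CL * (2 * T ^ 4) := mul_le_mul_of_nonneg_left hRlog hCL.le
        _ = 2 * CL * T ^ 4 := by ring
        _ ≤ Real.exp T := e7
    have h2 : CL * Real.log (R + 5) * Real.exp P ≤ Real.exp (T + P) := by
      rw [Real.exp_add]
      exact mul_le_mul_of_nonneg_right h1 (Real.exp_pos _).le
    have h3 : 1 ≤ Real.exp (T + P) := Real.one_le_exp (by linarith)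
    have h4 : (4 : ℝ) ≤ Real.exp 2 := by
      have h5 := Real.exp_one_gt_d9
      have h6 : Real.exp 2 = Real.exp 1 * Real.exp 1 := by rw [← Real.exp_add]; norm_num
      rw [h6]
      nlinarith
    have h5 : Real.exp (2 + T + P) = Real.exp 2 * Real.exp (T + P) := by
      rw [← Real.exp_add]
      congr 1
      ring
    rw [h5]
    nlinarith
  -- the upper bound
  have hup := Pool.Agent.H158.GL.sidedG (F := fun v => s * gP v) (K := K) (Y := Y) (δ := δ) (η := (Real.log δ⁻¹)⁻¹) hK0.le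
    hY0 hδ0 hη0 hη1
    ((hg _ (by linarith)).const_mul s) (fun v hv => by
      have h1 : 0 ≤ Y * (1 + (Real.log δ⁻¹)⁻¹ * (δ * v)) ^ 2 := by positivity
      rcases le_total v v0 with h2 | h2
      · have h3 := fP_le hs hv.le h2
        rw [← hK] at h3
        show s * gP v * Real.exp (-(v / 2)) ≤ _
        linarith
      · have h3 := hv1 v ((le_max_left _ _).trans (hv0 ▸ h2))
        have h4 := mul_le_mul_of_nonneg_left (qp_key ha0 ha1 hD ((le_max_right v1 (Real.exp 1)).trans (hv0 ▸ h2))) hB.le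
        have e : v / δ⁻¹ = δ * v := by rw [div_inv_eq_mul, mul_comm]
        rw [e, ← mul_assoc, ← hY] at h4
        show s * gP v * Real.exp (-(v / 2)) ≤ _
        linarith) S
    (η' := Real.exp (-P)) (Q := Real.exp (2 + T + P)) (Real.exp_pos _)
    (by rw [hδ, hPT]; exact Real.exp_le_exp.2 (by linarith)) (fun t ht => mem_W_one ht) (fun x hx => W_mono hx)
    (by positivity) (fun x hx => by
      rw [hP]
      exact far0 hC hSz (fun t ht => e9.trans (hS t ht).1) hx) (fun x hx => by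
      have h1 : |x| ≤ R := by
        have h2 := W_abs (U := T) (fun t ht => ⟨(hSz t ht).1, (hSz t ht).2.1⟩) hx
        refine h2.trans ?_
        calc (S.card : ℝ) * T ≤ T ^ 3 * T := mul_le_mul_of_nonneg_right hcard hT0.le
          _ = R := by rw [hR]; ring
      have h3 := lap_upP htr hCL hlnd (by linarith) hC hSz hx h1 hδ0 hδ20
      rw [hnl]
      rw [← hP] at h3
      exact h3.trans hQ)
  have hsum : ∑ t ∈ S, ‖lapC (fun v => s * gP v) (pt t + δ)‖ = ∑ t ∈ S, ‖lapC gP (pt t + δ)‖ :=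
    Finset.sum_congr rfl fun t _ => hnl _
  rw [hsum, lap_const_mul] at hup
  -- sizes
  have hYT : Y = B * (A + 4) ^ a * Real.log T ^ a := by
    rw [hY, hlogδ, ← hPT, Real.log_rpow hT0, Real.mul_rpow hA1.le (by linarith), mul_assoc]
  have hqb : 5 * Y ≤ Real.exp T - K := by
    rw [hlogδ, ← hPT] at hYq
    have h2 : (T ^ (A + 4)) ^ 2 = T ^ (2 * (A + 4)) := by
      rw [← Real.rpow_natCast, ← Real.rpow_mul hT0.le]
      congr 1
      push_cast
      ring
    rw [h2] at hYq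
    linarith
  have h2N : ∀ n : ℕ, (2 : ℝ) ^ n ≤ Real.exp n := by
    intro n
    calc (2 : ℝ) ^ n ≤ Real.exp 1 ^ n :=
          pow_le_pow_left₀ (by norm_num) (by have := Real.exp_one_gt_d9; linarith) n
      _ = Real.exp n := by rw [← Real.exp_nat_mul, mul_one]
  have t1 : δ * (2 ^ (S.card + 1) * ((K + 5 * Y) / Real.exp (-P))) ≤ 1 := by
    have h1 : (2 : ℝ) ^ (S.card + 1) ≤ Real.exp (T ^ 3 + 1) := by
      refine (h2N _).trans (Real.exp_le_exp.2 ?_)
      push_cast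
      linarith
    have h2 : (K + 5 * Y) / Real.exp (-P) ≤ Real.exp T * Real.exp P := by
      rw [Real.exp_neg, div_inv_eq_mul]
      exact mul_le_mul_of_nonneg_right (by linarith) (Real.exp_pos _).le
    have h3 : 0 ≤ (K + 5 * Y) / Real.exp (-P) := by positivity
    calc _ ≤ δ * (Real.exp (T ^ 3 + 1) * (Real.exp T * Real.exp P)) := by gcongr
      _ = Real.exp (-(P * R) + (T ^ 3 + 1 + (T + P))) := by
          rw [hδ, hPT, ← Real.exp_add, ← Real.exp_add, ← Real.exp_add]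
      _ ≤ 1 := by
          rw [Real.exp_le_one_iff]
          linarith
  have t2 : δ * (2 ^ S.card * Real.exp (2 + T + P)) ≤ 1 := by
    have h1 : (2 : ℝ) ^ S.card ≤ Real.exp (T ^ 3) := (h2N _).trans (Real.exp_le_exp.2 hcard)
    calc _ ≤ δ * (Real.exp (T ^ 3) * Real.exp (2 + T + P)) := by gcongr
      _ = Real.exp (-(P * R) + (T ^ 3 + (2 + T + P))) := by
          rw [hδ, hPT, ← Real.exp_add, ← Real.exp_add]
      _ ≤ 1 := by
          rw [Real.exp_le_one_iff]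
          linarith
  have t3 : Y * (1 + 2 * (Real.log δ⁻¹)⁻¹ + 2 * (Real.log δ⁻¹)⁻¹ ^ 2) ≤ Y * 5 := by
    refine mul_le_mul_of_nonneg_left ?_ hY0
    have h1 : (Real.log δ⁻¹)⁻¹ ^ 2 ≤ 1 := pow_le_one₀ hη0 hη1
    linarith
  have t4 : -1 ≤ δ * (s * lap gP (1 / 2 + δ)) := by
    have h1 : |δ * (s * lap gP (1 / 2 + δ))| ≤ 1 := by
      have e : δ * (s * lap gP (1 / 2 + δ)) = s * (δ * lap gP (1 / 2 + δ)) := by ring
      rw [e, abs_mul, s_abs hs, one_mul]
      exact e8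
    exact (abs_le.1 h1).1
  have hfin : δ * ∑ t ∈ S, ‖lapC gP (pt t + δ)‖ ≤ K + 3 + 5 * Y := by linarith
  refine hfin.trans (le_of_eq ?_)
  rw [hYT]
  ring

end Pool.Agent.H158.GP
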